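import Mathlib
import Pool.Agent.H341Q.Club

/-!
Closed bounded subsets of a well-order avoiding a set, ordered by end-extension.
-/

set_option autoImplicit false
open Cardinal Order Set

universe u v w

namespace Pool.Agent.X211

/-- Well-founded recursion in existential form. -/
theorem exists_rec {J : Type v} {X : Type w} [LinearOrder J] [WellFoundedLT J]
    (Φ : (j : J) → ((i : J) → i < j → X) → X → Prop) (h : ∀ j prev, ∃ x, Φ j prev x) :
    ∃ s : J → X, ∀ j, Φ j (fun i _ => s i) (s j) := by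
  classical
  have hwf : WellFounded (fun a b : J => a < b) := wellFounded_lt
  refine ⟨hwf.fix (fun j prev => Classical.choose (h j prev)), fun j => ?_⟩
  have e := hwf.fix_eq (fun j prev => Classical.choose (h j prev)) j
  rw [e]
  exact Classical.choose_spec (h j _)

section

variable {W : Type u} [LinearOrder W]

/-- closed bounded subsets of `W` avoiding `T` -/
@[ext] structure Cond (T : Set W) where
  carrier : Set W
  bdd : ∃ b, ∀ x ∈ carrier, x < b
  disj : ∀ x ∈ carrier, x ∉ T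
  closed : ∀ d ⊆ carrier, d.Nonempty → ∀ a, IsLUB d a → a ∈ carrier

/-- end-extension -/
instance (T : Set W) : PartialOrder (Cond T) where
  le p q := p.carrier ⊆ q.carrier ∧ ∀ x ∈ q.carrier, ∀ y ∈ p.carrier, x ≤ y → x ∈ p.carrier
  le_refl p := ⟨Subset.rfl, fun x hx _ _ _ => hx⟩
  le_trans p q r h1 h2 := ⟨h1.1.trans h2.1, fun x hx y hy hxy =>
    h1.2 x (h2.2 x hx y (h1.1 hy) hxy) y hy hxy⟩
  le_antisymm p q h1 h2 := Cond.ext (Subset.antisymm h1.1 h2.1)

theorem Cond.le_def {T : Set W} {p q : Cond T} : p ≤ q ↔ p.carrier ⊆ q.carrier ∧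
    ∀ x ∈ q.carrier, ∀ y ∈ p.carrier, x ≤ y → x ∈ p.carrier := Iff.rfl

theorem join [NoMaxOrder W] {T : Set W} (𝒜 : Set (Cond T)) (hch : IsChain (· ≤ ·) 𝒜) (g : W)
    (hg : g ∉ T) (hlt : ∀ p ∈ 𝒜, ∀ x ∈ p.carrier, x < g)
    (hcof : (∃ m ∈ 𝒜, ∀ p ∈ 𝒜, p ≤ m) ∨ ∀ y < g, ∃ p ∈ 𝒜, ∃ x ∈ p.carrier, y < x) :
    ∃ u : Cond T, u.carrier = insert g (⋃ p ∈ 𝒜, p.carrier) ∧ ∀ p ∈ 𝒜, p ≤ u := by
  classical
  have hmemU : ∀ x, x ∈ insert g (⋃ p ∈ 𝒜, p.carrier) ↔ x = g ∨ ∃ p ∈ 𝒜, x ∈ p.carrier := by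
    intro x
    simp
  have hend : ∀ p ∈ 𝒜, ∀ p' ∈ 𝒜, ∀ x ∈ p'.carrier, ∀ y ∈ p.carrier, x ≤ y → x ∈ p.carrier := by
    intro p hp p' hp' x hx y hy hxy
    rcases hch.total hp hp' with h | h
    · exact h.2 x hx y hy hxy
    · exact h.1 hx
  refine ⟨⟨insert g (⋃ p ∈ 𝒜, p.carrier), ?_, ?_, ?_⟩, rfl, ?_⟩
  · obtain ⟨b, hb⟩ := exists_gt g
    refine ⟨b, fun x hx => ?_⟩
    rcases (hmemU x).mp hx with rfl | ⟨p, hp, hxp⟩
    · exact hb
    · exact (hlt p hp x hxp).trans hb
  · intro x hx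
    rcases (hmemU x).mp hx with rfl | ⟨p, hp, hxp⟩
    · exact hg
    · exact p.disj x hxp
  · intro d hd hne a ha
    rw [hmemU]
    by_cases hgd : g ∈ d
    · left
      apply le_antisymm
      · apply ha.2
        intro x hx
        rcases (hmemU x).mp (hd hx) with rfl | ⟨p, hp, hxp⟩
        · exact le_rfl
        · exact (hlt p hp x hxp).le
      · exact ha.1 hgd
    · have hd' : ∀ x ∈ d, ∃ p ∈ 𝒜, x ∈ p.carrier := by
        intro x hx
        rcases (hmemU x).mp (hd hx) with rfl | h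
        · exact absurd hx hgd
        · exact h
      by_cases hsub : ∃ p ∈ 𝒜, d ⊆ p.carrier
      · obtain ⟨p, hp, hdp⟩ := hsub
        exact Or.inr ⟨p, hp, p.closed d hdp hne a ha⟩
      · rcases hcof with ⟨m, hm, hmax⟩ | hcof
        · exfalso
          apply hsub
          refine ⟨m, hm, fun x hx => ?_⟩
          obtain ⟨p, hp, hxp⟩ := hd' x hx
          exact (hmax p hp).1 hxp
        · left
          apply le_antisymm
          · apply ha.2
            intro x hx
            obtain ⟨p, hp, hxp⟩ := hd' x hx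
            exact (hlt p hp x hxp).le
          · by_contra hcon
            rw [not_le] at hcon
            obtain ⟨p, hp, x, hxp, hax⟩ := hcof a hcon
            apply hsub
            refine ⟨p, hp, fun y hy => ?_⟩
            obtain ⟨p', hp', hyp'⟩ := hd' y hy
            exact hend p hp p' hp' y hyp' x hxp ((ha.1 hy).trans hax.le)
  · intro p hp
    refine ⟨fun x hx => (hmemU x).mpr (Or.inr ⟨p, hp, hx⟩), ?_⟩
    intro x hx y hy hxy
    rcases (hmemU x).mp hx with rfl | ⟨p', hp', hxp'⟩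
    · exact absurd (hlt p hp y hy) (not_lt.mpr hxy)
    · exact hend p hp p' hp' x hxp' y hy hxy

/-- If `T` is stationary then chains are small. -/
theorem chain_card [WellFoundedLT W] [NoMaxOrder W] {T : Set W} (hT : IsStationary T)
    {μ : Cardinal.{u}} (hμ : ℵ₀ ≤ μ) (hseg : ∀ x : W, #(Iio x) ≤ μ) (C : Set (Cond T))
    (hC : IsChain (· ≤ ·) C) : #C ≤ μ := by
  classical
  by_contra hcon
  rw [not_le] at hcon
  let U : Set W := ⋃ p ∈ C, p.carrier
  have hmemU : ∀ x, x ∈ U ↔ ∃ p ∈ C, x ∈ p.carrier := by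
    intro x
    simp [U]
  have hinit : ∀ p ∈ C, ∀ x ∈ U, ∀ y ∈ p.carrier, x ≤ y → x ∈ p.carrier := by
    intro p hp x hx y hy hxy
    obtain ⟨q, hq, hxq⟩ := (hmemU x).mp hx
    rcases hC.total hp hq with h | h
    · exact h.2 x hxq y hy hxy
    · exact h.1 hxq
  have hunb : ∀ b : W, ∃ y ∈ U, b ≤ y := by
    intro b
    by_contra hb
    push Not at hb
    -- injection of `C` into `Option (Iio b)`
    let m : Cond T → Option W := fun p =>
      if h : (U \ p.carrier).Nonempty then some (wellFounded_lt.min (U \ p.carrier) h) else none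
    have hm : ∀ p ∈ C, ∀ q ∈ C, m p = m q → p = q := by
      have key : ∀ p ∈ C, ∀ q ∈ C, m p = m q → p.carrier ⊆ q.carrier := by
        intro p hp q hq hpq x hx
        by_contra hxq
        have hxU : x ∈ U := (hmemU x).mpr ⟨p, hp, hx⟩
        have hq' : (U \ q.carrier).Nonempty := ⟨x, hxU, hxq⟩
        have hmq : m q = some (wellFounded_lt.min (U \ q.carrier) hq') := dif_pos hq'
        rw [hmq] at hpq
        have hp' : (U \ p.carrier).Nonempty := by
          by_contra h
          have : m p = none := dif_neg h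
          rw [this] at hpq
          exact absurd hpq (by simp)
        have hmp : m p = some (wellFounded_lt.min (U \ p.carrier) hp') := dif_pos hp'
        rw [hmp] at hpq
        have e := Option.some.inj hpq
        have h1 := wellFounded_lt.min_mem (U \ p.carrier) hp'
        rw [e] at h1
        have h2 : wellFounded_lt.min (U \ q.carrier) hq' ≤ x :=
          not_lt.mp (wellFounded_lt.not_lt_min (U \ q.carrier) ⟨hxU, hxq⟩)
        exact h1.2 (hinit p hp _ h1.1 x hx h2)
      intro p hp q hq hpq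
      exact Cond.ext (Subset.antisymm (key p hp q hq hpq) (key q hq p hp hpq.symm))
    have hmb : ∀ p ∈ C, ∀ w, m p = some w → w < b := by
      intro p hp w hw
      by_cases h : (U \ p.carrier).Nonempty
      · have hmp : m p = some (wellFounded_lt.min (U \ p.carrier) h) := dif_pos h
        rw [hmp] at hw
        have h1 := wellFounded_lt.min_mem (U \ p.carrier) h
        rw [Option.some.inj hw] at h1
        exact hb w h1.1
      · have : m p = none := dif_neg h
        rw [this] at hw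
        exact absurd hw (by simp)
    have hinj : Set.InjOn m C := fun p hp q hq h => hm p hp q hq h
    have hsub : m '' C ⊆ insert none (some '' Iio b) := by
      rintro _ ⟨p, hp, rfl⟩
      rcases ho : m p with _ | w
      · exact Or.inl rfl
      · exact Or.inr ⟨w, hmb p hp w ho, rfl⟩
    have h1 : #C ≤ #(Iio b) + 1 := by
      rw [← Cardinal.mk_image_eq_of_injOn m C hinj]
      exact (Cardinal.mk_le_mk_of_subset hsub).trans (Cardinal.mk_insert_le.trans
        (add_le_add_left Cardinal.mk_image_le 1))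
    have h2 : #(Iio b) + 1 ≤ μ :=
      (add_le_add (hseg b) (Cardinal.one_le_aleph0.trans hμ)).trans (Cardinal.add_eq_self hμ).le
    exact absurd (h1.trans h2) (not_le.mpr hcon)
  have hclub : IsClub U := by
    refine ⟨?_, fun a => hunb a⟩
    intro d hd hne _ a ha
    obtain ⟨b, hab⟩ := exists_gt a
    obtain ⟨y, hyU, hby⟩ := hunb b
    obtain ⟨p, hp, hyp⟩ := (hmemU y).mp hyU
    have hdp : d ⊆ p.carrier := fun x hx =>
      hinit p hp x (hd hx) y hyp ((ha.1 hx).trans (hab.le.trans hby))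
    exact (hmemU a).mpr ⟨p, hp, p.closed d hdp hne a ha⟩
  obtain ⟨x, hxT, hxU⟩ := hT hclub
  obtain ⟨p, hp, hxp⟩ := (hmemU x).mp hxU
  exact p.disj x hxp hxT

/-- Simultaneous construction of long bounded chains in cofinal sets. -/
theorem exists_long [WellFoundedLT W] [NoMaxOrder W] {I : Type u} {T : I → Set W}
    (hT : ∀ i, ∀ g : W, ∃ δ, g < δ ∧ δ ∉ T i)
    (hdisj : ∀ i j, i ≠ j → Disjoint (T i) (T j)) {κ : Cardinal.{u}} (hκ : ℵ₀ ≤ κ) (hκI : κ < #I)
    (hcof : #I < cof W) (Q : ∀ i, Set (Cond (T i)))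
    (hQ : ∀ i, ∀ p : Cond (T i), ∃ q ∈ Q i, p ≤ q) (p : ∀ i, Cond (T i)) :
    ∃ i, ∃ c : κ.ord.ToType → Cond (T i), StrictMono c ∧ (∀ j, c j ∈ Q i) ∧ (∀ j, p i ≤ c j) ∧
      ∃ q ∈ Q i, ∀ j, c j ≤ q := by
  classical
  have hcofκ : κ < cof W := hκI.trans hcof
  -- the initial bound
  have hb0 : ∃ γ : W, ∀ i, ∀ x ∈ (p i).carrier, x < γ := by
    choose b hb using fun i => (p i).bdd
    obtain ⟨γ, hγ⟩ := Pool.Agent.H341Q.exists_bound (s := range b) (mk_range_le.trans_lt hcof)
    exact ⟨γ, fun i x hx => (hb i x hx).trans (hγ _ ⟨i, rfl⟩)⟩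
  obtain ⟨γ₀, hγ₀⟩ := hb0
  let J : Type u := WithTop κ.ord.ToType
  have hJ : #J ≤ κ := by
    change #(Option κ.ord.ToType) ≤ κ
    rw [Cardinal.mk_option, Cardinal.mk_ord_toType]
    exact (Cardinal.add_one_eq hκ).le
  let X : Type u := (∀ i, Cond (T i)) × W × W
  let G : (j : J) → ((i : J) → i < j → X) → Set W := fun j prev =>
    insert γ₀ {γ | ∃ (j' : J) (h : j' < j), γ = (prev j' h).2.2}
  let good : (j : J) → ((i : J) → i < j → X) → W → (i : I) → Cond (T i) → Prop :=
    fun j prev g i q => q ∈ Q i ∧ p i ≤ q ∧ (∀ (j' : J) (h : j' < j), (prev j' h).1 i ≤ q) ∧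
      g ∈ q.carrier ∧ ∃ δ ∈ q.carrier, g < δ
  let Φ : (j : J) → ((i : J) → i < j → X) → X → Prop := fun j prev x =>
    IsLUB (G j prev) x.2.1 ∧ (∀ i, ∀ y ∈ (x.1 i).carrier, y < x.2.2) ∧ x.2.1 < x.2.2 ∧
      ∀ i, (∃ q, good j prev x.2.1 i q) → good j prev x.2.1 i (x.1 i)
  obtain ⟨s, hs⟩ := exists_rec Φ (by
    intro j prev
    have hGb : BddAbove (G j prev) := by
      refine BddAbove.of_not_isCofinal fun hh => (cof_le hh).not_gt ?_
      have h1 : G j prev ⊆ insert γ₀ (range (fun j' : Iio j => (prev j'.1 j'.2).2.2)) := by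
        rintro γ (h | ⟨j', h, rfl⟩)
        · exact Or.inl h
        · exact Or.inr ⟨⟨j', h⟩, rfl⟩
      have h2 : #(G j prev) ≤ κ + 1 := (Cardinal.mk_le_mk_of_subset h1).trans
        (Cardinal.mk_insert_le.trans (add_le_add_left
          (Cardinal.mk_range_le.trans ((Cardinal.mk_set_le _).trans hJ)) 1))
      rw [Cardinal.add_one_eq hκ] at h2
      exact h2.trans_lt hcofκ
    obtain ⟨g, hg⟩ := Pool.Agent.H341Q.exists_isLUB hGb
    let c : ∀ i, Cond (T i) := fun i => if h : ∃ q, good j prev g i q then h.choose else p i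
    have hb : ∃ γ : W, ∀ i, ∀ x ∈ (c i).carrier, x < γ := by
      choose b hb using fun i => (c i).bdd
      obtain ⟨γ, hγ⟩ := Pool.Agent.H341Q.exists_bound (s := range b) (mk_range_le.trans_lt hcof)
      exact ⟨γ, fun i x hx => (hb i x hx).trans (hγ _ ⟨i, rfl⟩)⟩
    obtain ⟨γ, hγ⟩ := hb
    obtain ⟨γ', hγ'⟩ := exists_gt (max γ g)
    refine ⟨(c, g, γ'), hg, ?_, (le_max_right _ _).trans_lt hγ', ?_⟩
    · intro i y hy
      exact (hγ i y hy).trans ((le_max_left _ _).trans_lt hγ')
    · intro i hi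
      have e : c i = hi.choose := dif_pos hi
      change good j prev g i (c i)
      rw [e]
      exact hi.choose_spec)
  -- choose a surviving index
  have hsurv : ∃ i, ∀ j, (s j).2.1 ∉ T i := by
    by_contra hcon
    push Not at hcon
    choose j hj using hcon
    have hinj : Function.Injective j := by
      intro i i' hii
      by_contra hne
      have h1 := hj i
      have h2 := hj i'
      rw [← hii] at h2
      exact Set.disjoint_left.mp (hdisj i i' hne) h1 h2
    exact absurd ((Cardinal.mk_le_of_injective hinj).trans hJ) (not_le.mpr hκI)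
  obtain ⟨i, hi⟩ := hsurv
  have hgood : ∀ j, good j (fun j' _ => s j') (s j).2.1 i ((s j).1 i) := by
    intro j
    induction j using WellFoundedLT.induction with
    | ind j ih =>
      obtain ⟨hlub, hlt, hgγ, hch⟩ := hs j
      apply hch i
      -- the chain
      let 𝒜 : Set (Cond (T i)) := insert (p i) {q | ∃ j' < j, q = (s j').1 i}
      have hmono : ∀ j₁ j₂, j₁ < j₂ → j₂ < j → (s j₁).1 i ≤ (s j₂).1 i := fun j₁ j₂ h1 h2 =>
        (ih j₂ h2).2.2.1 j₁ h1
      have hchain : IsChain (· ≤ ·) 𝒜 := by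
        rintro q₁ (rfl | ⟨j₁, h₁, rfl⟩) q₂ (rfl | ⟨j₂, h₂, rfl⟩) hne
        · exact absurd rfl hne
        · exact Or.inl (ih j₂ h₂).2.1
        · exact Or.inr (ih j₁ h₁).2.1
        · rcases lt_trichotomy j₁ j₂ with h | h | h
          · exact Or.inl (hmono _ _ h h₂)
          · subst h; exact absurd rfl hne
          · exact Or.inr (hmono _ _ h h₁)
      have hGle : ∀ j' < j, (s j').2.2 ≤ (s j).2.1 := fun j' h => hlub.1 (Or.inr ⟨j', h, rfl⟩)
      have hlt𝒜 : ∀ q ∈ 𝒜, ∀ x ∈ q.carrier, x < (s j).2.1 := by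
        rintro q (rfl | ⟨j', h, rfl⟩) x hx
        · exact (hγ₀ i x hx).trans_le (hlub.1 (Or.inl rfl))
        · exact ((hs j').2.1 i x hx).trans_le (hGle j' h)
      have hcof𝒜 : (∃ m ∈ 𝒜, ∀ q ∈ 𝒜, q ≤ m) ∨
          ∀ y < (s j).2.1, ∃ q ∈ 𝒜, ∃ x ∈ q.carrier, y < x := by
        by_cases hne : ∃ j', j' < j
        · by_cases hmax : ∃ m < j, ∀ j' < j, j' ≤ m
          · obtain ⟨m, hm, hmm⟩ := hmax
            left
            refine ⟨(s m).1 i, Or.inr ⟨m, hm, rfl⟩, ?_⟩
            rintro q (rfl | ⟨j', h, rfl⟩)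
            · exact (ih m hm).2.1
            · rcases (hmm j' h).lt_or_eq with h' | h'
              · exact hmono _ _ h' hm
              · rw [h']
          · right
            push Not at hmax
            intro y hy
            obtain ⟨γ, hγ, hyγ⟩ := (lt_isLUB_iff hlub).1 hy
            have key : ∀ j' < j, ∃ q ∈ 𝒜, ∃ x ∈ q.carrier, (s j').2.1 < x := by
              intro j' h
              obtain ⟨_, _, _, _, δ, hδ, hlt'⟩ := ih j' h
              exact ⟨_, Or.inr ⟨j', h, rfl⟩, δ, hδ, hlt'⟩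
            rcases hγ with h | ⟨j', h, h'⟩
            · obtain ⟨j', hj'⟩ := hne
              obtain ⟨q, hq, x, hx, hlt'⟩ := key j' hj'
              refine ⟨q, hq, x, hx, ?_⟩
              have h1 : γ₀ ≤ (s j').2.1 := (hs j').1.1 (Or.inl rfl)
              rw [h] at hyγ
              exact hyγ.trans_le (h1.trans hlt'.le)
            · obtain ⟨j'', hj'', hlt0⟩ := hmax j' h
              have hlt'' : j' < j'' := by
                rcases lt_trichotomy j' j'' with h9 | h9 | h9
                · exact h9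
                · exact absurd h9.ge hlt0
                · exact absurd h9.le hlt0
              obtain ⟨q, hq, x, hx, hlt'⟩ := key j'' hj''
              refine ⟨q, hq, x, hx, ?_⟩
              have h1 : (s j').2.2 ≤ (s j'').2.1 := (hs j'').1.1 (Or.inr ⟨j', hlt'', rfl⟩)
              rw [h'] at hyγ
              exact hyγ.trans_le (h1.trans hlt'.le)
        · left
          refine ⟨p i, Or.inl rfl, ?_⟩
          rintro q (rfl | ⟨j', h, rfl⟩)
          · exact le_rfl
          · exact absurd ⟨j', h⟩ hne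
      obtain ⟨u, hu1, hu2⟩ := join 𝒜 hchain _ (hi j) hlt𝒜 hcof𝒜
      obtain ⟨δ, hδ1, hδ2⟩ := hT i (s j).2.1
      have hult : ∀ x ∈ u.carrier, x ≤ (s j).2.1 := by
        intro x hx
        rw [hu1] at hx
        rcases hx with rfl | hx
        · exact le_rfl
        · simp only [mem_iUnion] at hx
          obtain ⟨q, hq, hxq⟩ := hx
          exact (hlt𝒜 q hq x hxq).le
      obtain ⟨v, hv1, hv2⟩ := join ({u} : Set (Cond (T i))) (by
          intro a ha b hb hab
          exact absurd ((mem_singleton_iff.mp ha).trans (mem_singleton_iff.mp hb).symm) hab) δ hδ2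
        (by
          intro q hq x hx
          rw [mem_singleton_iff.mp hq] at hx
          exact (hult x hx).trans_lt hδ1) (Or.inl ⟨u, rfl, fun q hq => by
            rw [mem_singleton_iff.mp hq]⟩)
      obtain ⟨q, hqQ, hvq⟩ := hQ i v
      have huq : u ≤ q := (hv2 u rfl).trans hvq
      refine ⟨q, hqQ, (hu2 _ (Or.inl rfl)).trans huq, ?_, ?_, δ, ?_, hδ1⟩
      · intro j' h
        exact (hu2 _ (Or.inr ⟨j', h, rfl⟩)).trans huq
      · apply huq.1
        rw [hu1]
        exact Or.inl rfl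
      · apply hvq.1
        rw [hv1]
        exact Or.inl rfl
  refine ⟨i, fun j => (s (WithTop.some j)).1 i, ?_, fun j => (hgood _).1, fun j => (hgood _).2.1,
    (s ⊤).1 i, (hgood ⊤).1, fun j => (hgood ⊤).2.2.1 _ (WithTop.coe_lt_top j)⟩
  intro j j' hjj
  have h1 : WithTop.some j < WithTop.some j' := WithTop.coe_lt_coe.2 hjj
  have h2 := (hgood (WithTop.some j')).2.2.1 _ h1
  refine lt_of_le_of_ne h2 ?_
  intro he
  have h3 := (hgood (WithTop.some j')).2.2.2.1
  have he' : (s (WithTop.some j)).1 i = (s (WithTop.some j')).1 i := he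
  rw [← he'] at h3
  have h4 := (hs (WithTop.some j)).2.1 i _ h3
  have h5 : (s (WithTop.some j)).2.2 ≤ (s (WithTop.some j')).2.1 :=
    (hs (WithTop.some j')).1.1 (Or.inr ⟨_, h1, rfl⟩)
  exact absurd h4 (not_lt.mpr h5)

open Pool.Agent.H341Q in
/-- Ulam: `μ⁺` disjoint stationary sets. -/
lemma ulam_succ [WellFoundedLT W] [NoMaxOrder W] [Nonempty W] {μ : Cardinal.{u}} (hμ : ℵ₀ ≤ μ)
    (hW : #W = succ μ) (hcof : μ < cof W) (hseg : ∀ x : W, #(Iio x) ≤ μ) :
    ∃ (ι : Type u) (S : ι → Set W), #ι = succ μ ∧ (∀ i j, i ≠ j → Disjoint (S i) (S j)) ∧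
      (∀ i, S i ⊆ LimOmega W) ∧ ∀ i, IsStationary (S i) := by
  classical
  have hc0 : ℵ₀ < cof W := hμ.trans_lt hcof
  let M : Type u := μ.out
  have hM : #M = μ := mk_out μ
  have hinj : ∀ δ : W, Nonempty (Iio δ ↪ M) := by
    intro δ
    have := hseg δ
    rw [← hM] at this
    exact this
  let f : ∀ δ : W, Iio δ ↪ M := fun δ => (hinj δ).some
  let A : W → M → Set W := fun ξ η => {δ | δ ∈ LimOmega W ∧ ∃ h : ξ < δ, f δ ⟨ξ, h⟩ = η}
  have h1 : ∀ ξ, ∃ η, IsStationary (A ξ η) := by
    intro ξ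
    have h2 : LimOmega W ∩ Ioi ξ = ⋃ η, A ξ η := by
      ext δ
      simp only [mem_inter_iff, mem_Ioi, mem_iUnion, A, mem_ofPred_eq]
      constructor
      · rintro ⟨h3, h4⟩
        exact ⟨f δ ⟨ξ, h4⟩, h3, h4, rfl⟩
      · rintro ⟨η, h3, h4, _⟩
        exact ⟨h3, h4⟩
    have h3 := stationary_limOmega hc0 ξ
    rw [h2, isStationary_iUnion_iff hc0.ne'] at h3
    · exact h3
    · simp only [hM, Cardinal.lift_id]
      exact hcof
  choose η hη using h1
  obtain ⟨m, hm⟩ := infinite_pigeonhole_card (α := M) η (succ μ) hW.ge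
    (hμ.trans (le_succ μ)) (by
      rw [hM, (isRegular_succ hμ).cof_ord]
      exact lt_succ μ)
  obtain ⟨I, hI⟩ := (le_mk_iff_exists_set).1 hm
  refine ⟨I, fun i => A i.1.1 m, hI, ?_, ?_, ?_⟩
  · intro i j hij
    rw [Set.disjoint_left]
    rintro δ ⟨_, h5, h6⟩ ⟨_, h7, h8⟩
    apply hij
    have h9 := (f δ).injective (h6.trans h8.symm)
    have h10 : (i.1.1 : W) = j.1.1 := Subtype.mk.inj h9
    exact Subtype.ext (Subtype.ext h10)
  · rintro i δ ⟨h5, _⟩
    exact h5
  · intro i
    have h5 := hη i.1.1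
    have h6 : η i.1.1 = m := i.1.2
    rw [h6] at h5
    exact h5

end

end Pool.Agent.X211
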