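import Mathlib

/-!
Injective choice functions (systems of distinct representatives) by transfinite recursion.
-/

open Cardinal Set

universe u

namespace Pool.Agent.X211

/-- Every type carries a linear well-order all whose initial segments are smaller than the type. -/
theorem exists_wellOrder_small (X : Type u) :
    ∃ (_ : LinearOrder X) (_ : WellFoundedLT X), ∀ x : X, #(Set.Iio x) < #X := by
  obtain ⟨o, w, h⟩ := Cardinal.exists_ord_eq_type_lt X
  exact ⟨o, w, fun x => Cardinal.mk_Iio_lt x h⟩

/-- If every set `S x` has at least `#X` elements, then there is an injective choice function. -/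
theorem exists_injective_choice {X Y : Type u} (S : X → Set Y) (h : ∀ x, #X ≤ #(S x)) :
    ∃ f : X → Y, Function.Injective f ∧ ∀ x, f x ∈ S x := by
  classical
  obtain ⟨_, _, hseg⟩ := exists_wellOrder_small X
  have hwf : WellFounded (fun a b : X => a < b) := wellFounded_lt
  have key : ∀ x : X, ∀ g : (z : X) → z < x → Y, ∃ y, y ∈ S x ∧ ∀ z (hz : z < x), g z hz ≠ y := by
    intro x g
    by_contra hcon
    push Not at hcon
    have hsub : S x ⊆ Set.range (fun z : Set.Iio x => g z.1 z.2) := by
      intro y hy
      obtain ⟨z, hz, e⟩ := hcon y hy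
      exact ⟨⟨z, hz⟩, e⟩
    have h1 : #(S x) ≤ #(Set.Iio x) := (Cardinal.mk_le_mk_of_subset hsub).trans Cardinal.mk_range_le
    exact absurd ((h x).trans h1) (not_le.mpr (hseg x))
  let f : X → Y := hwf.fix (fun x g => Classical.choose (key x g))
  have hf : ∀ x, f x ∈ S x ∧ ∀ z, z < x → f z ≠ f x := by
    intro x
    have e : f x = Classical.choose (key x (fun z _ => f z)) := hwf.fix_eq _ x
    have := Classical.choose_spec (key x (fun z _ => f z))
    rw [← e] at this
    exact this
  refine ⟨f, ?_, fun x => (hf x).1⟩
  intro x y hxy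
  rcases lt_trichotomy x y with h1 | h1 | h1
  · exact absurd hxy ((hf y).2 x h1)
  · exact h1
  · exact absurd hxy.symm ((hf x).2 y h1)

end Pool.Agent.X211
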