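import Mathlib
import Pool.Agent.Results.MP_028983_lc.DeltaAll

/-!
A tower lemma for injections from ordinals below `κ⁺` into `κ` and a simultaneous version of the
goodness lemma of the starting file `MP_028983_lc/DeltaAll` for countably many maps.
-/

set_option autoImplicit false
open Cardinal Order Set

universe u v w

namespace Pool.Agent.X211

open Pool.Agent.Results.MP_028983_lc.DeltaAll

variable {κ : Cardinal.{u}}

lemma tower (hκ : ℵ₀ ≤ κ) (z : Set.Iio κ.ord) (δ : InjFun κ → Ordinal.{u})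
    (hδ1 : ∀ g, δ g < (succ κ).ord) :
    ∃ s : WithTop κ.ord.ToType → InjFun κ,
      ∀ i j, i < j → Ext z (s i) (s j) ∧ δ (s i) < (s j).dom := by
  classical
  have hΩ : (0 : Ordinal.{u}) < (succ κ).ord := by
    rw [Cardinal.lt_ord, Ordinal.card_zero]
    exact (aleph0_pos.trans_le hκ).trans (lt_succ κ)
  let K : Type u := κ.ord.ToType
  have hK : #K = κ := Cardinal.mk_ord_toType _
  let J : Type u := WithTop K
  have hJ : #J ≤ κ := by
    show #(Option K) ≤ κ
    rw [Cardinal.mk_option, hK]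
    exact (Cardinal.add_one_eq hκ).le
  obtain ⟨p⟩ : Nonempty (J × K ↪ Set.Iio κ.ord) := by
    rw [← Cardinal.lift_mk_le'.{u, u + 1}, Cardinal.mk_Iio_ordinal, Cardinal.card_ord]
    have h1 : #(J × K) ≤ κ := by
      rw [Cardinal.mk_prod, Cardinal.lift_id, Cardinal.lift_id, hK]
      exact (mul_le_mul' hJ le_rfl).trans (Cardinal.mul_eq_self hκ).le
    have h2 : Cardinal.lift.{u + 1, u} #(J × K) ≤ Cardinal.lift.{u + 1, u} κ :=
      Cardinal.lift_le.2 h1
    simpa using h2
  have he : ∀ τ : Ordinal.{u}, τ < (succ κ).ord →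
      ∃ e : Ordinal.{u} → K, ∀ ξ < τ, ∀ η < τ, e ξ = e η → ξ = η := by
    intro τ hτ
    have hcard : τ.card ≤ κ := by
      rw [Cardinal.lt_ord] at hτ
      exact lt_succ_iff.1 hτ
    obtain ⟨q⟩ : Nonempty (Set.Iio τ ↪ K) := by
      rw [← Cardinal.lift_mk_le'.{u + 1, u}, Cardinal.mk_Iio_ordinal, hK]
      have h2 : Cardinal.lift.{u + 1, u} τ.card ≤ Cardinal.lift.{u + 1, u} κ :=
        Cardinal.lift_le.2 hcard
      simpa using h2
    have hKne : Nonempty K := by
      rw [← Cardinal.mk_ne_zero_iff, hK]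
      exact (aleph0_pos.trans_le hκ).ne'
    refine ⟨fun ξ => if h : ξ < τ then q ⟨ξ, h⟩ else Classical.arbitrary K, ?_⟩
    intro ξ hξ η hη h
    simp only [dif_pos hξ, dif_pos hη] at h
    exact congrArg Subtype.val (q.injective h)
  choose e he using he
  have hX : Nonempty (InjFun κ) :=
    ⟨ofFun 0 hΩ (fun _ => z) (fun ξ hξ => absurd hξ not_lt_zero)⟩
  obtain ⟨s, -, hs⟩ := exists_seq (J := J) (X := InjFun κ)
    (R := fun j x => ∀ ζ < x.dom, ∃ i ≤ j, ∃ c, ext z x ζ = p (i, c))
    (S := fun g x => Ext z g x ∧ δ g < x.dom) (by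
      intro j g hR hS
      obtain ⟨τ, hτ, hτb⟩ := exists_bound hκ hJ
        (fun i => if i < j then max (g i).dom (δ (g i)) else 0) (by
          intro i
          show (if i < j then max (g i).dom (δ (g i)) else 0) < (succ κ).ord
          split_ifs
          · exact max_lt (g i).dom_lt (hδ1 (g i))
          · exact hΩ)
      have hb1 : ∀ i < j, (g i).dom < τ ∧ δ (g i) < τ := by
        intro i hi
        have := hτb i
        simp only [if_pos hi] at this
        exact max_lt_iff.1 this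
      let G : Ordinal.{u} → Set.Iio κ.ord := fun ζ =>
        if h : ∃ i, i < j ∧ ζ < (g i).dom then ext z (g h.choose) ζ else p (j, e τ hτ ζ)
      have hGold : ∀ i < j, ∀ ζ < (g i).dom, G ζ = ext z (g i) ζ := by
        intro i hi ζ hζ
        have hex : ∃ i, i < j ∧ ζ < (g i).dom := ⟨i, hi, hζ⟩
        have h1 : G ζ = ext z (g hex.choose) ζ := by
          simp only [G]
          rw [dif_pos hex]
        rw [h1]
        obtain ⟨h2, h3⟩ := hex.choose_spec
        rcases lt_trichotomy i hex.choose with h | h | h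
        · exact (hS _ _ h h2).1.2 ζ hζ
        · rw [← h]
        · exact ((hS _ _ h hi).1.2 ζ h3).symm
      have hGnew : ∀ ζ, (¬ ∃ i, i < j ∧ ζ < (g i).dom) → G ζ = p (j, e τ hτ ζ) := by
        intro ζ hζ
        simp only [G]
        rw [dif_neg hζ]
      have hGinj : ∀ ξ < τ, ∀ η < τ, G ξ = G η → ξ = η := by
        intro ξ hξ η hη hGG
        by_cases h1 : ∃ i, i < j ∧ ξ < (g i).dom
        · obtain ⟨i, hi, hξi⟩ := h1
          by_cases h2 : ∃ i, i < j ∧ η < (g i).dom
          · obtain ⟨i', hi', hηi⟩ := h2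
            -- use the larger index
            rcases lt_trichotomy i i' with h | h | h
            · have hle := (hS i i' h hi').1.1
              rw [hGold i' hi' ξ (hξi.trans_le hle), hGold i' hi' η hηi] at hGG
              exact ext_inj z (g i') (hξi.trans_le hle) hηi hGG
            · subst h
              rw [hGold i hi ξ hξi, hGold i hi η hηi] at hGG
              exact ext_inj z (g i) hξi hηi hGG
            · have hle := (hS i' i h hi).1.1
              rw [hGold i hi ξ hξi, hGold i hi η (hηi.trans_le hle)] at hGG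
              exact ext_inj z (g i) hξi (hηi.trans_le hle) hGG
          · rw [hGold i hi ξ hξi, hGnew η h2] at hGG
            obtain ⟨i', hi', c, hc⟩ := hR i hi ξ hξi
            rw [hc] at hGG
            have := (Prod.ext_iff.1 (p.injective hGG)).1
            simp only at this
            exact absurd (hi'.trans_lt hi) (by rw [this]; exact lt_irrefl j)
        · by_cases h2 : ∃ i, i < j ∧ η < (g i).dom
          · obtain ⟨i, hi, hηi⟩ := h2
            rw [hGold i hi η hηi, hGnew ξ h1] at hGG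
            obtain ⟨i', hi', c, hc⟩ := hR i hi η hηi
            rw [hc] at hGG
            have := (Prod.ext_iff.1 (p.injective hGG)).1
            simp only at this
            exact absurd (hi'.trans_lt hi) (by rw [← this]; exact lt_irrefl j)
          · rw [hGnew ξ h1, hGnew η h2] at hGG
            have := (Prod.ext_iff.1 (p.injective hGG)).2
            exact he τ hτ ξ hξ η hη this
      have hext : ∀ ζ < τ, ext z (ofFun τ hτ G hGinj) ζ = G ζ := by
        intro ζ hζ
        exact ext_eq z (ofFun τ hτ G hGinj) hζ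
      refine ⟨ofFun τ hτ G hGinj, ?_, ?_⟩
      · intro ζ hζ
        rw [hext ζ hζ]
        by_cases h1 : ∃ i, i < j ∧ ζ < (g i).dom
        · obtain ⟨i, hi, hζi⟩ := h1
          rw [hGold i hi ζ hζi]
          obtain ⟨i', hi', c, hc⟩ := hR i hi ζ hζi
          exact ⟨i', hi'.trans hi.le, c, hc⟩
        · exact ⟨j, le_rfl, _, hGnew ζ h1⟩
      · intro i hi
        refine ⟨⟨(hb1 i hi).1.le, ?_⟩, (hb1 i hi).2⟩
        intro ζ hζ
        rw [hext ζ (hζ.trans (hb1 i hi).1)]
        exact hGold i hi ζ hζ)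
  exact ⟨s, hs⟩

lemma mk_Iic_lt (hκ : ℵ₀ ≤ κ) (k : κ.ord.ToType) : #(Set.Iic k) < κ := by
  have h1 : #(Set.Iio k) < κ := Cardinal.mk_Iio_toType_ord_lt k
  have : Set.Iic k = insert k (Set.Iio k) := by
    ext j
    simp [le_iff_eq_or_lt]
  rw [this]
  refine lt_of_le_of_lt Cardinal.mk_insert_le ?_
  exact Cardinal.add_lt_of_lt hκ h1 (Cardinal.one_lt_aleph0.trans_le hκ)

/-- Increasing sequence `g n` such that `g n` is good for `D n`. -/
lemma exists_goods (hκ : ℵ₀ ≤ κ) (D : ℕ → InjFun κ → Set Ordinal.{u})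
    (hD : ∀ n f, #(D n f) < Cardinal.lift.{u + 1} κ) (z : Set.Iio κ.ord) :
    ∃ g : ℕ → InjFun κ, (∀ m n, m < n → Ext z (g m) (g n)) ∧
      ∀ n, ∀ δ < (succ κ).ord, ∃ f, Ext z (g n) f ∧ δ < f.dom ∧
        ∀ ξ ∈ D n f, ξ < δ → ξ < (g n).dom := by
  classical
  let bad : ℕ → InjFun κ → Ordinal.{u} → Prop := fun n g δ =>
    ∀ f, Ext z g f → δ < f.dom → ∃ ξ ∈ D n f, ξ < δ ∧ g.dom ≤ ξ
  have hΩ : (0 : Ordinal.{u}) < (succ κ).ord := by
    rw [Cardinal.lt_ord, Ordinal.card_zero]
    exact (aleph0_pos.trans_le hκ).trans (lt_succ κ)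
  let δ₀ : ℕ → InjFun κ → Ordinal.{u} := fun n g =>
    if h : ∃ δ, δ < (succ κ).ord ∧ bad n g δ then h.choose else 0
  have hδ₀ : ∀ n g, δ₀ n g < (succ κ).ord := by
    intro n g
    simp only [δ₀]
    split_ifs with h
    · exact h.choose_spec.1
    · exact hΩ
  have hex : ∀ g : InjFun κ, ∃ τ < (succ κ).ord, ∀ n : ULift.{u} ℕ, δ₀ n.down g < τ := by
    intro g
    refine exists_bound hκ ?_ (fun n : ULift.{u} ℕ => δ₀ n.down g) (fun n => hδ₀ _ _)
    have : #(ULift.{u} ℕ) = ℵ₀ := by simp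
    rw [this]
    exact hκ
  choose δ' hδ'1 hδ'2 using hex
  obtain ⟨s, hs⟩ := tower hκ z δ' hδ'1
  let B : ℕ → Set κ.ord.ToType := fun n =>
    {k | ∃ δ, δ < (succ κ).ord ∧ bad n (s (k : WithTop κ.ord.ToType)) δ}
  have hB : ∀ n, #(B n) < κ := by
    intro n
    have htop : ∀ k : B n, ∃ ξ ∈ D n (s ⊤), ξ < δ' (s ((k : κ.ord.ToType) : WithTop κ.ord.ToType)) ∧
        (s ((k : κ.ord.ToType) : WithTop κ.ord.ToType)).dom ≤ ξ := by
      rintro ⟨k, hk⟩
      obtain ⟨h1, h2⟩ := hs (k : WithTop κ.ord.ToType) ⊤ (WithTop.coe_lt_top k)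
      have e : δ₀ n (s (k : WithTop κ.ord.ToType)) = hk.choose := by
        simp only [δ₀]
        exact dif_pos hk
      have hlt : δ₀ n (s (k : WithTop κ.ord.ToType)) < δ' (s (k : WithTop κ.ord.ToType)) :=
        hδ'2 _ ⟨n⟩
      have hbad := hk.choose_spec.2
      rw [← e] at hbad
      obtain ⟨ξ, a1, a2, a3⟩ := hbad (s ⊤) h1 (hlt.trans h2)
      exact ⟨ξ, a1, a2.trans hlt, a3⟩
    choose ξ hξD hξ1 hξ2 using htop
    have hmono : ∀ k k' : B n, (k : κ.ord.ToType) < k' → ξ k < ξ k' := by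
      intro k k' hkk
      have h1 := (hs ((k : κ.ord.ToType) : WithTop κ.ord.ToType)
        ((k' : κ.ord.ToType) : WithTop κ.ord.ToType) (WithTop.coe_lt_coe.2 hkk)).2
      exact (hξ1 k).trans (h1.trans_le (hξ2 k'))
    have hinj : Function.Injective (fun k : B n => (⟨ξ k, hξD k⟩ : D n (s ⊤))) := by
      intro k k' h
      have h0 : ξ k = ξ k' := congrArg Subtype.val h
      rcases lt_trichotomy (k : κ.ord.ToType) k' with h1 | h1 | h1
      · exact absurd h0 (hmono k k' h1).ne
      · exact Subtype.ext h1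
      · exact absurd h0.symm (hmono k' k h1).ne
    have hle := Cardinal.lift_mk_le_lift_mk_of_injective hinj
    rw [Cardinal.lift_id'.{u, u + 1}] at hle
    exact Cardinal.lift_lt.1 (hle.trans_lt (hD n (s ⊤)))
  have hstep : ∀ n (k₀ : κ.ord.ToType), ∃ k, k₀ < k ∧ k ∉ B n := by
    intro n k₀
    by_contra hcon
    push Not at hcon
    have hsub : (Set.univ : Set κ.ord.ToType) ⊆ Set.Iic k₀ ∪ B n := by
      intro k _
      by_cases h : k ≤ k₀
      · exact Or.inl h
      · exact Or.inr (hcon k (not_le.mp h))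
    have h1 := (Cardinal.mk_le_mk_of_subset hsub).trans (Cardinal.mk_union_le _ _)
    rw [Cardinal.mk_univ, Cardinal.mk_ord_toType] at h1
    exact absurd h1 (not_le.mpr (Cardinal.add_lt_of_lt hκ (mk_Iic_lt hκ k₀) (hB n)))
  choose nx hnx1 hnx2 using hstep
  have hKne : Nonempty κ.ord.ToType := by
    rw [← Cardinal.mk_ne_zero_iff, Cardinal.mk_ord_toType]
    exact (aleph0_pos.trans_le hκ).ne'
  let k : ℕ → κ.ord.ToType := fun n =>
    Nat.rec (nx 0 (Classical.arbitrary _)) (fun m y => nx (m + 1) y) n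
  have hk : ∀ n, k n ∉ B n := by
    intro n
    cases n with
    | zero => exact hnx2 0 _
    | succ m => exact hnx2 (m + 1) _
  have hkmono : StrictMono k := strictMono_nat_of_lt_succ fun n => hnx1 (n + 1) _
  refine ⟨fun n => s (WithTop.some (k n)), ?_, ?_⟩
  · intro m n hmn
    exact (hs _ _ (WithTop.coe_lt_coe.2 (hkmono hmn))).1
  · intro n δ hδ
    have h1 : ¬ bad n (s (WithTop.some (k n))) δ := fun hb => hk n ⟨δ, hδ, hb⟩
    simp only [bad] at h1
    push Not at h1
    exact h1

end Pool.Agent.X211
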