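import Mathlib

/-!
Two `A`-sets of size at most `#M` in which every orbit type occurs at least `#M` times are
isomorphic.
-/

set_option autoImplicit false
open Cardinal Set MulAction

universe u v

namespace Pool.Agent.X211

section

variable {A : Type v} [Group A]

/-- the conjugacy class of a subgroup -/
def cc (B : Subgroup A) : Set (Subgroup A) :=
  {B' | ∃ g : A, B' = B.map (MulAut.conj g).toMonoidHom}

theorem self_mem_cc (B : Subgroup A) : B ∈ cc B := ⟨1, by
  ext x
  simp⟩

theorem cc_stab {X : Type u} [MulAction A X] {x y : X} (h : (orbitRel A X) x y) :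
    cc (stabilizer A x) = cc (stabilizer A y) := by
  rw [orbitRel_apply, mem_orbit_iff] at h
  obtain ⟨g, rfl⟩ := h
  rw [stabilizer_smul_eq_stabilizer_map_conj]
  ext B
  constructor
  · rintro ⟨g', rfl⟩
    refine ⟨g' * g, ?_⟩
    rw [Subgroup.map_map]
    congr 1
    ext a
    simp
  · rintro ⟨g', rfl⟩
    refine ⟨g' * g⁻¹, ?_⟩
    rw [Subgroup.map_map]
    congr 1
    ext a
    simp only [MulEquiv.toMonoidHom_eq_coe, MonoidHom.coe_comp, MonoidHom.coe_coe,
      Function.comp_apply, MulAut.conj_apply]
    group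

/-- every orbit type occurs at least `#M` times -/
def ManyTypes (A : Type v) [Group A] (X : Type u) [MulAction A X] (M : Type u) : Prop :=
  ∀ B : Subgroup A, ∃ f : M → X, (∀ m, stabilizer A (f m) = B) ∧
    ∀ m m', (orbitRel A X) (f m) (f m') → m = m'

theorem card_fiber {X M : Type u} [MulAction A X] (hX : #X ≤ #M) (hm : ManyTypes A X M)
    (B : Subgroup A) : #{o : orbitRel.Quotient A X // cc (stabilizer A o.out) = cc B} = #M := by
  apply le_antisymm
  · refine (Cardinal.mk_subtype_le _).trans (le_trans ?_ hX)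
    exact Cardinal.mk_quotient_le
  · obtain ⟨f, hf, hinj⟩ := hm B
    refine Cardinal.mk_le_of_injective (f := fun m =>
      (⟨Quotient.mk (orbitRel A X) (f m), ?_⟩ :
        {o : orbitRel.Quotient A X // cc (stabilizer A o.out) = cc B})) ?_
    · rw [← hf m]
      exact cc_stab (Quotient.mk_out (s := orbitRel A X) (f m))
    · intro m m' h
      exact hinj m m' (Quotient.exact (congrArg Subtype.val h))

/-- Isomorphism of `A`-sets. -/
theorem exists_equivariant {X Y M : Type u} [MulAction A X] [MulAction A Y] (hX : #X ≤ #M)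
    (hY : #Y ≤ #M) (mX : ManyTypes A X M) (mY : ManyTypes A Y M) :
    ∃ φ : X ≃ Y, ∀ (a : A) (x : X), φ (a • x) = a • φ x := by
  classical
  -- bijection of orbits
  let kX : orbitRel.Quotient A X → Set (Subgroup A) := fun o => cc (stabilizer A o.out)
  let kY : orbitRel.Quotient A Y → Set (Subgroup A) := fun o => cc (stabilizer A o.out)
  have hfib : ∀ c, Nonempty ({o // kX o = c} ≃ {o // kY o = c}) := by
    intro c
    by_cases hc : ∃ B, c = cc B
    · obtain ⟨B, rfl⟩ := hc
      rw [← Cardinal.eq]
      exact (card_fiber hX mX B).trans (card_fiber hY mY B).symm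
    · have e1 : IsEmpty {o // kX o = c} := ⟨fun o => hc ⟨_, o.2.symm⟩⟩
      have e2 : IsEmpty {o // kY o = c} := ⟨fun o => hc ⟨_, o.2.symm⟩⟩
      exact ⟨Equiv.equivOfIsEmpty _ _⟩
  let E : orbitRel.Quotient A X ≃ orbitRel.Quotient A Y :=
    (Equiv.sigmaFiberEquiv kX).symm.trans
      ((Equiv.sigmaCongrRight fun c => (hfib c).some).trans (Equiv.sigmaFiberEquiv kY))
  have hE : ∀ o, kY (E o) = kX o := by
    intro o
    exact ((hfib (kX o)).some ⟨o, rfl⟩).2
  have hy : ∀ o : orbitRel.Quotient A X, ∃ y : Y, Quotient.mk (orbitRel A Y) y = E o ∧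
      stabilizer A y = stabilizer A o.out := by
    intro o
    have h1 : stabilizer A o.out ∈ cc (stabilizer A (E o).out) := by
      have := hE o
      change cc _ = cc _ at this
      rw [this]
      exact self_mem_cc _
    obtain ⟨g, hg⟩ := h1
    refine ⟨g • (E o).out, ?_, ?_⟩
    · conv_rhs => rw [← Quotient.out_eq (E o)]
      apply Quotient.sound
      exact ⟨g, rfl⟩
    · rw [stabilizer_smul_eq_stabilizer_map_conj, hg]
  choose y hy1 hy2 using hy
  have ha : ∀ x : X, ∃ a : A, a • (Quotient.mk (orbitRel A X) x).out = x := by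
    intro x
    have h := Setoid.symm' (orbitRel A X) (Quotient.mk_out (s := orbitRel A X) x)
    rw [orbitRel_apply, mem_orbit_iff] at h
    exact h
  choose α hα using ha
  have key : ∀ (o : orbitRel.Quotient A X) (a b : A), a • o.out = b • o.out ↔
      a • y o = b • y o := by
    intro o a b
    have e1 : a • o.out = b • o.out ↔ b⁻¹ * a ∈ stabilizer A o.out := by
      rw [mem_stabilizer_iff, mul_smul, inv_smul_eq_iff]
    have e2 : a • y o = b • y o ↔ b⁻¹ * a ∈ stabilizer A (y o) := by
      rw [mem_stabilizer_iff, mul_smul, inv_smul_eq_iff]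
    rw [e1, e2, hy2]
  let F : X → Y := fun x => α x • y (Quotient.mk (orbitRel A X) x)
  have hForb : ∀ x, Quotient.mk (orbitRel A Y) (F x) = E (Quotient.mk (orbitRel A X) x) := by
    intro x
    rw [← hy1]
    apply Quotient.sound
    exact ⟨α x, rfl⟩
  have hF : ∀ (o : orbitRel.Quotient A X) (a : A), F (a • o.out) = a • y o := by
    intro o a
    have h1 : Quotient.mk (orbitRel A X) (a • o.out) = o := by
      conv_rhs => rw [← Quotient.out_eq o]
      apply Quotient.sound
      exact ⟨a, rfl⟩
    have h2 := hα (a • o.out)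
    simp only [F]
    rw [h1] at h2 ⊢
    exact (key o _ _).mp h2
  have hinj : Function.Injective F := by
    intro x x' h
    have h1 : Quotient.mk (orbitRel A X) x = Quotient.mk (orbitRel A X) x' := by
      apply E.injective
      rw [← hForb, ← hForb, h]
    have h2 : α x • y (Quotient.mk (orbitRel A X) x) = α x' • y (Quotient.mk (orbitRel A X) x) := by
      have : F x = F x' := h
      simp only [F] at this
      rw [← h1] at this
      exact this
    have h3 := (key _ _ _).mpr h2
    rw [hα x] at h3
    rw [h3, h1, hα x']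
  have hsurj : Function.Surjective F := by
    intro y'
    obtain ⟨o, ho⟩ := E.surjective (Quotient.mk (orbitRel A Y) y')
    rw [← hy1] at ho
    have h := Quotient.exact ho.symm
    change (orbitRel A Y) _ _ at h
    rw [orbitRel_apply, mem_orbit_iff] at h
    obtain ⟨a, ha⟩ := h
    exact ⟨a • o.out, by rw [hF, ha]⟩
  refine ⟨Equiv.ofBijective F ⟨hinj, hsurj⟩, ?_⟩
  intro a x
  change F (a • x) = a • F x
  have h1 : x = α x • (Quotient.mk (orbitRel A X) x).out := (hα x).symm
  conv_lhs => rw [h1, ← mul_smul, hF]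
  simp only [F]
  rw [mul_smul]

end

end Pool.Agent.X211
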