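import Mathlib

/-!
Reduction of `κ`-existential closedness to an embedding property for small groups.
-/

set_option autoImplicit false
open Cardinal Set

universe u

namespace Pool.Agent.X211

/-- generators of the free product -/
def gam {G X : Type u} [Group G] : G ⊕ X → Monoid.Coprod G (FreeGroup X) :=
  Sum.elim Monoid.Coprod.inl (fun x => Monoid.Coprod.inr (FreeGroup.of x))

theorem exists_finite_support {G X : Type u} [Group G] (w : Monoid.Coprod G (FreeGroup X)) :
    ∃ T : Set (G ⊕ X), T.Finite ∧ w ∈ Subgroup.closure (gam '' T) := by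
  induction w using Monoid.Coprod.induction_on with
  | inl g =>
    exact ⟨{Sum.inl g}, Set.finite_singleton _, Subgroup.subset_closure ⟨_, rfl, rfl⟩⟩
  | inr x =>
    induction x using FreeGroup.induction_on with
    | C1 =>
      refine ⟨∅, Set.finite_empty, ?_⟩
      rw [map_one]
      exact one_mem _
    | of x =>
      exact ⟨{Sum.inr x}, Set.finite_singleton _, Subgroup.subset_closure ⟨_, rfl, rfl⟩⟩
    | inv_of x h =>
      obtain ⟨T, hT, hw⟩ := h
      refine ⟨T, hT, ?_⟩
      rw [map_inv]
      exact inv_mem hw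
    | mul x y hx hy =>
      obtain ⟨T, hT, hw⟩ := hx
      obtain ⟨T', hT', hw'⟩ := hy
      refine ⟨T ∪ T', hT.union hT', ?_⟩
      rw [map_mul]
      exact mul_mem (Subgroup.closure_mono (Set.image_mono subset_union_left) hw)
        (Subgroup.closure_mono (Set.image_mono subset_union_right) hw')
  | mul x y hx hy =>
    obtain ⟨T, hT, hw⟩ := hx
    obtain ⟨T', hT', hw'⟩ := hy
    refine ⟨T ∪ T', hT.union hT', ?_⟩
    exact mul_mem (Subgroup.closure_mono (Set.image_mono subset_union_left) hw)
      (Subgroup.closure_mono (Set.image_mono subset_union_right) hw')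

theorem mk_closure_le {G : Type u} [Group G] {κ : Cardinal.{u}} (hκ : ℵ₀ ≤ κ) {s : Set G}
    (hs : #s ≤ κ) : #(Subgroup.closure s) ≤ κ := by
  rcases s.eq_empty_or_nonempty with rfl | hne
  · rw [Subgroup.closure_empty]
    have : #(⊥ : Subgroup G) = 1 := by simp
    rw [this]
    exact Cardinal.one_le_aleph0.trans hκ
  · have : Nonempty s := hne.to_subtype
    have h2 : (FreeGroup.lift (Subtype.val : s → G)).range = Subgroup.closure s := by
      rw [FreeGroup.range_lift_eq_closure, Subtype.range_coe]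
    rw [← h2]
    have h3 : #(FreeGroup.lift (Subtype.val : s → G)).range ≤ #(FreeGroup s) :=
      Cardinal.mk_range_le
    refine h3.trans ?_
    rw [Cardinal.mk_freeGroup]
    exact max_le hs hκ

theorem ec_of_emb {G : Type u} [Group G] {κ : Cardinal.{u}} (hκ : ℵ₀ ≤ κ)
    (emb : ∀ (A : Subgroup G) (L : Type u) [Group L] (j : A →* L), #A ≤ κ → #L ≤ κ →
      Function.Injective j → ∃ Θ : L →* G, Function.Injective Θ ∧ ∀ a : A, Θ (j a) = a)
    {X : Type u} (E N : Set (Monoid.Coprod G (FreeGroup X))) (hE : #E < κ) (hN : #N < κ)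
    {H : Type u} [Group H] (ι : G →* H) (hι : Function.Injective ι) (v : X → H)
    (hEv : ∀ w ∈ E, Monoid.Coprod.lift ι (FreeGroup.lift v) w = 1)
    (hNv : ∀ w ∈ N, Monoid.Coprod.lift ι (FreeGroup.lift v) w ≠ 1) :
    ∃ v' : X → G, (∀ w ∈ E, Monoid.Coprod.lift (MonoidHom.id G) (FreeGroup.lift v') w = 1) ∧
      ∀ w ∈ N, Monoid.Coprod.lift (MonoidHom.id G) (FreeGroup.lift v') w ≠ 1 := by
  classical
  choose T hTfin hT using fun w : Monoid.Coprod G (FreeGroup X) => exists_finite_support w
  let W : Set (Monoid.Coprod G (FreeGroup X)) := E ∪ N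
  have hW : #W ≤ κ := ((Cardinal.mk_union_le _ _).trans
    (add_le_add hE.le hN.le)).trans (Cardinal.add_eq_self hκ).le
  let TT : Set (G ⊕ X) := ⋃ w : W, T w.1
  have hTT : #TT ≤ κ := by
    refine (Cardinal.mk_iUnion_le _).trans ?_
    have h1 : ⨆ w : W, #(T w.1) ≤ ℵ₀ := by
      apply ciSup_le'
      intro w
      exact (Cardinal.lt_aleph0_iff_set_finite.mpr (hTfin _)).le
    exact (mul_le_mul' hW h1).trans ((mul_le_mul' le_rfl hκ).trans (Cardinal.mul_eq_self hκ).le)
  let AS : Set G := Sum.inl ⁻¹' TT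
  let XS : Set X := Sum.inr ⁻¹' TT
  have hAS : #AS ≤ κ := (Cardinal.mk_preimage_of_injective _ _ Sum.inl_injective).trans hTT
  have hXS : #XS ≤ κ := (Cardinal.mk_preimage_of_injective _ _ Sum.inr_injective).trans hTT
  let A : Subgroup G := Subgroup.closure AS
  have hA : #A ≤ κ := mk_closure_le hκ hAS
  let L : Subgroup H := Subgroup.closure (ι '' AS ∪ v '' XS)
  have hL : #L ≤ κ := by
    apply mk_closure_le hκ
    exact (Cardinal.mk_union_le _ _).trans ((add_le_add (Cardinal.mk_image_le.trans hAS)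
      (Cardinal.mk_image_le.trans hXS)).trans (Cardinal.add_eq_self hκ).le)
  have hAL : A ≤ L.comap ι := by
    rw [Subgroup.closure_le]
    intro g hg
    exact Subgroup.subset_closure (Or.inl ⟨g, hg, rfl⟩)
  let j : A →* L := (ι.comp A.subtype).codRestrict L (fun a => hAL a.2)
  have hj : Function.Injective j := by
    intro a b hab
    have : ι a = ι b := congrArg Subtype.val hab
    exact Subtype.ext (hι this)
  obtain ⟨Θ, hΘ, hΘj⟩ := emb A L j hA hL hj
  have hvL : ∀ x : X, Sum.inr x ∈ TT → v x ∈ L := fun x hx =>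
    Subgroup.subset_closure (Or.inr ⟨x, hx, rfl⟩)
  let v' : X → G := fun x => if h : Sum.inr x ∈ TT then Θ ⟨v x, hvL x h⟩ else 1
  have key : ∀ w ∈ Subgroup.closure (gam '' TT),
      ∃ h : Monoid.Coprod.lift ι (FreeGroup.lift v) w ∈ L,
        Monoid.Coprod.lift (MonoidHom.id G) (FreeGroup.lift v') w = Θ ⟨_, h⟩ := by
    intro w hw
    induction hw using Subgroup.closure_induction with
    | mem w hw =>
      obtain ⟨t, ht, rfl⟩ := hw
      rcases t with g | x
      · have hg : g ∈ A := Subgroup.subset_closure ht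
        refine ⟨?_, ?_⟩
        · simpa [gam] using hAL hg
        · have := hΘj ⟨g, hg⟩
          simp only [gam, Sum.elim_inl, Monoid.Coprod.lift_apply_inl, MonoidHom.id_apply]
          exact this.symm
      · refine ⟨?_, ?_⟩
        · simpa [gam] using hvL x ht
        · simp only [gam, Sum.elim_inr, Monoid.Coprod.lift_apply_inr, FreeGroup.lift_apply_of]
          simp only [v']
          rw [dif_pos ht]
    | one =>
      refine ⟨by rw [map_one]; exact one_mem _, ?_⟩
      rw [map_one]
      have : (⟨Monoid.Coprod.lift ι (FreeGroup.lift v) 1, by rw [map_one]; exact one_mem _⟩ : L)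
          = 1 := Subtype.ext (map_one _)
      rw [this, map_one]
    | mul x y _ _ hx hy =>
      obtain ⟨h1, e1⟩ := hx
      obtain ⟨h2, e2⟩ := hy
      refine ⟨by rw [map_mul]; exact mul_mem h1 h2, ?_⟩
      rw [map_mul, e1, e2, ← map_mul]
      congr 1
      exact Subtype.ext (map_mul _ _ _).symm
    | inv x _ hx =>
      obtain ⟨h1, e1⟩ := hx
      refine ⟨by rw [map_inv]; exact inv_mem h1, ?_⟩
      rw [map_inv, e1, ← map_inv]
      congr 1
      exact Subtype.ext (map_inv _ _).symm
  have hmem : ∀ w ∈ W, w ∈ Subgroup.closure (gam '' TT) := fun w hw =>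
    Subgroup.closure_mono (Set.image_mono (Set.subset_iUnion (fun w : W => T w.1) ⟨w, hw⟩)) (hT w)
  refine ⟨v', ?_, ?_⟩
  · intro w hw
    obtain ⟨h, e⟩ := key w (hmem w (Or.inl hw))
    rw [e]
    have : (⟨_, h⟩ : L) = 1 := Subtype.ext (hEv w hw)
    rw [this, map_one]
  · intro w hw h0
    obtain ⟨h, e⟩ := key w (hmem w (Or.inr hw))
    rw [e] at h0
    have h1 : (⟨_, h⟩ : L) = 1 := hΘ (h0.trans (map_one Θ).symm)
    exact hNv w hw (congrArg Subtype.val h1)

end Pool.Agent.X211
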