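import Mathlib

/-!
A cumulative hierarchy of hereditarily small labelled sets of sequences, and the groups of its
permutations which are canonical above some level.
-/

set_option autoImplicit false
open Cardinal Set

universe u

namespace Pool.Agent.X211

/-- The hierarchy: every element `z` has a level, a label and a small set of `K`-sequences of
elements of smaller level, and is determined by these; all such data occur. -/
structure Hier (K M J : Type u) [LinearOrder J] where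
  Ω : Type u
  lvl : Ω → J
  lab : Ω → M
  mem : Ω → Set (K → Ω)
  ext : ∀ z z', lvl z = lvl z' → lab z = lab z' → mem z = mem z' → z = z'
  lt : ∀ z, ∀ t ∈ mem z, ∀ k, lvl (t k) < lvl z
  small : ∀ z, #(mem z) ≤ #K
  node : ∀ (j : J) (m : M) (S : Set (K → Ω)), #S ≤ #K → (∀ t ∈ S, ∀ k, lvl (t k) < j) →
    ∃ z, lvl z = j ∧ lab z = m ∧ mem z = S
  card : #Ω ≤ #M

section Exists

variable {K J Z : Type u} [LinearOrder J]

/-- well-founded part of a code -/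
inductive Good (e : Z ≃ J × {S : Set (K → Z) // #S ≤ #K} × Z) : Z → Prop
  | mk (z : Z) (h : ∀ s ∈ (e z).2.1.1, ∀ k, (e (s k)).1 < (e z).1)
      (h' : ∀ s ∈ (e z).2.1.1, ∀ k, Good e (s k)) : Good e z

theorem Good.lt' {e : Z ≃ J × {S : Set (K → Z) // #S ≤ #K} × Z} {z : Z} (h : Good e z) :
    ∀ s ∈ (e z).2.1.1, ∀ k, (e (s k)).1 < (e z).1 := by
  cases h with
  | mk _ h _ => exact h

theorem Good.good' {e : Z ≃ J × {S : Set (K → Z) // #S ≤ #K} × Z} {z : Z} (h : Good e z) :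
    ∀ s ∈ (e z).2.1.1, ∀ k, Good e (s k) := by
  cases h with
  | mk _ _ h => exact h

theorem exists_hier (e : Z ≃ J × {S : Set (K → Z) // #S ≤ #K} × Z) : Nonempty (Hier K Z J) := by
  classical
  let Ω : Type u := {z : Z // Good e z}
  have hinj : Function.Injective (fun (t : K → Ω) (k : K) => (t k).1) := by
    intro t t' h
    funext k
    exact Subtype.ext (congrFun h k)
  refine ⟨{
    Ω := Ω
    lvl := fun z => (e z.1).1
    lab := fun z => (e z.1).2.2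
    mem := fun z => {t | (fun k => (t k).1) ∈ (e z.1).2.1.1}
    ext := ?_
    lt := ?_
    small := ?_
    node := ?_
    card := Cardinal.mk_subtype_le _ }⟩
  · intro z z' h1 h2 h3
    apply Subtype.ext
    apply e.injective
    refine Prod.ext h1 (Prod.ext (Subtype.ext ?_) h2)
    ext s
    constructor
    · intro hs
      let t : K → Ω := fun k => ⟨s k, z.2.good' s hs k⟩
      have ht : t ∈ {t : K → Ω | (fun k => (t k).1) ∈ (e z.1).2.1.1} := hs
      rw [h3] at ht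
      exact ht
    · intro hs
      let t : K → Ω := fun k => ⟨s k, z'.2.good' s hs k⟩
      have ht : t ∈ {t : K → Ω | (fun k => (t k).1) ∈ (e z'.1).2.1.1} := hs
      rw [← h3] at ht
      exact ht
  · intro z t ht k
    exact z.2.lt' _ ht k
  · intro z
    refine le_trans ?_ (e z.1).2.1.2
    exact Cardinal.mk_le_of_injective (f := fun t : {t : K → Ω | (fun k => (t k).1) ∈
      (e z.1).2.1.1} => (⟨fun k => (t.1 k).1, t.2⟩ : (e z.1).2.1.1))
      (fun t t' h => Subtype.ext (hinj (congrArg Subtype.val h)))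
  · intro j m S hS hlt
    have hS' : #((fun (t : K → Ω) (k : K) => (t k).1) '' S) ≤ #K :=
      (Cardinal.mk_image_le).trans hS
    let w : Z := e.symm (j, ⟨_, hS'⟩, m)
    have hw : e w = (j, ⟨_, hS'⟩, m) := e.apply_symm_apply _
    have hgood : Good e w := by
      refine Good.mk w ?_ ?_
      · rw [hw]
        rintro s ⟨t, ht, rfl⟩ k
        exact hlt t ht k
      · rw [hw]
        rintro s ⟨t, ht, rfl⟩ k
        exact (t k).2
    refine ⟨⟨w, hgood⟩, ?_, ?_, ?_⟩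
    · change (e w).1 = j
      rw [hw]
    · change (e w).2.2 = m
      rw [hw]
    · ext t
      change (fun k => (t k).1) ∈ (e w).2.1.1 ↔ _
      rw [hw]
      constructor
      · rintro ⟨t', ht', h⟩
        rw [← hinj h]
        exact ht'
      · intro ht
        exact ⟨t, ht, rfl⟩

end Exists

section Canonical

variable {K M J : Type u} [LinearOrder J] (𝓗 : Hier K M J)

/-- `f` is canonical from level `i` on. -/
def Hier.Can (i : J) (f : 𝓗.Ω → 𝓗.Ω) : Prop :=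
  ∀ z, i ≤ 𝓗.lvl z → 𝓗.lvl (f z) = 𝓗.lvl z ∧ 𝓗.lab (f z) = 𝓗.lab z ∧
    𝓗.mem (f z) = (fun t => f ∘ t) '' 𝓗.mem z

variable {𝓗}

theorem Hier.Can.mono {i i' : J} {f : 𝓗.Ω → 𝓗.Ω} (h : 𝓗.Can i f) (hi : i ≤ i') : 𝓗.Can i' f :=
  fun z hz => h z (hi.trans hz)

theorem Hier.can_id (i : J) : 𝓗.Can i id := by
  intro z _
  refine ⟨rfl, rfl, ?_⟩
  ext t
  simp

theorem Hier.Can.comp {i : J} {f g : 𝓗.Ω → 𝓗.Ω} (hf : 𝓗.Can i f) (hg : 𝓗.Can i g) :
    𝓗.Can i (f ∘ g) := by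
  intro z hz
  obtain ⟨h1, h2, h3⟩ := hg z hz
  obtain ⟨k1, k2, k3⟩ := hf (g z) (hz.trans h1.ge)
  refine ⟨k1.trans h1, k2.trans h2, ?_⟩
  simp only [Function.comp_apply]
  rw [k3, h3, ← Set.image_comp]
  rfl

theorem Hier.Can.uniq [WellFoundedLT J] {i : J} {f g : 𝓗.Ω → 𝓗.Ω} (hf : 𝓗.Can i f)
    (hg : 𝓗.Can i g) (h : ∀ z, 𝓗.lvl z < i → f z = g z) : f = g := by
  have key : ∀ j : J, ∀ z, 𝓗.lvl z = j → f z = g z := by
    intro j
    induction j using WellFoundedLT.induction with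
    | ind j ih =>
      intro z hz
      by_cases hi : 𝓗.lvl z < i
      · exact h z hi
      · rw [not_lt] at hi
        obtain ⟨h1, h2, h3⟩ := hf z hi
        obtain ⟨k1, k2, k3⟩ := hg z hi
        refine 𝓗.ext _ _ (h1.trans k1.symm) (h2.trans k2.symm) ?_
        rw [h3, k3]
        apply Set.image_congr
        intro t ht
        funext k
        exact ih (𝓗.lvl (t k)) (hz ▸ 𝓗.lt z t ht k) _ rfl
  funext z
  exact key _ z rfl

/-- Existence of canonical extensions. -/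
theorem Hier.exists_can [WellFoundedLT J] (i : J) (g : 𝓗.Ω → 𝓗.Ω)
    (hg : ∀ z, 𝓗.lvl z < i → 𝓗.lvl (g z) < i) :
    ∃ f : 𝓗.Ω → 𝓗.Ω, 𝓗.Can i f ∧ ∀ z, 𝓗.lvl z < i → f z = g z := by
  classical
  have hwf : WellFounded (fun a b : 𝓗.Ω => 𝓗.lvl a < 𝓗.lvl b) :=
    InvImage.wf 𝓗.lvl wellFounded_lt
  -- the value at `z`, given the previous values
  let Φ : (z : 𝓗.Ω) → ((w : 𝓗.Ω) → 𝓗.lvl w < 𝓗.lvl z → 𝓗.Ω) → 𝓗.Ω → Prop := fun z prev y =>
    (𝓗.lvl z < i → y = g z) ∧ (i ≤ 𝓗.lvl z → 𝓗.lvl y = 𝓗.lvl z ∧ 𝓗.lab y = 𝓗.lab z ∧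
      𝓗.mem y = {t | ∃ s, ∃ hs : s ∈ 𝓗.mem z, t = fun k => prev (s k) (𝓗.lt z s hs k)})
  let F : (z : 𝓗.Ω) → ((w : 𝓗.Ω) → 𝓗.lvl w < 𝓗.lvl z → 𝓗.Ω) → 𝓗.Ω := fun z prev =>
    if h : ∃ y, Φ z prev y then h.choose else z
  let f : 𝓗.Ω → 𝓗.Ω := hwf.fix F
  have hfix : ∀ z, f z = F z (fun w _ => f w) := fun z => hwf.fix_eq F z
  have key : ∀ j : J, ∀ z, 𝓗.lvl z = j → Φ z (fun w _ => f w) (f z) := by
    intro j
    induction j using WellFoundedLT.induction with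
    | ind j ih =>
      intro z hz
      have hex : ∃ y, Φ z (fun w _ => f w) y := by
        by_cases hi : 𝓗.lvl z < i
        · exact ⟨g z, fun _ => rfl, fun h => absurd hi (not_lt.mpr h)⟩
        · rw [not_lt] at hi
          obtain ⟨y, hy1, hy2, hy3⟩ := 𝓗.node (𝓗.lvl z) (𝓗.lab z)
            ((fun t => f ∘ t) '' 𝓗.mem z) (Cardinal.mk_image_le.trans (𝓗.small z)) (by
              rintro _ ⟨t, ht, rfl⟩ k
              have hlt := 𝓗.lt z t ht k
              have hΦ := ih (𝓗.lvl (t k)) (hz ▸ hlt) (t k) rfl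
              by_cases hik : 𝓗.lvl (t k) < i
              · change 𝓗.lvl (f (t k)) < _
                rw [hΦ.1 hik]
                exact (hg _ hik).trans_le hi
              · change 𝓗.lvl (f (t k)) < _
                rw [(hΦ.2 (not_lt.mp hik)).1]
                exact hlt)
          refine ⟨y, fun h => absurd h (not_lt.mpr hi), fun _ => ⟨hy1, hy2, ?_⟩⟩
          rw [hy3]
          ext t
          constructor
          · rintro ⟨s, hs, rfl⟩
            exact ⟨s, hs, rfl⟩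
          · rintro ⟨s, hs, rfl⟩
            exact ⟨s, hs, rfl⟩
      have e : f z = hex.choose := by
        rw [hfix z]
        exact dif_pos hex
      rw [e]
      exact hex.choose_spec
  refine ⟨f, ?_, fun z hz => (key _ z rfl).1 hz⟩
  intro z hz
  obtain ⟨h1, h2, h3⟩ := (key _ z rfl).2 hz
  refine ⟨h1, h2, ?_⟩
  rw [h3]
  ext t
  constructor
  · rintro ⟨s, hs, rfl⟩
    exact ⟨s, hs, rfl⟩
  · rintro ⟨s, hs, rfl⟩
    exact ⟨s, hs, rfl⟩

variable (𝓗)

/-- The group of permutations canonical from level `i` on. -/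
def Hier.grp (i : J) : Subgroup (Equiv.Perm 𝓗.Ω) where
  carrier := {f | 𝓗.Can i f ∧ ∀ z, 𝓗.lvl (f z) < i ↔ 𝓗.lvl z < i}
  mul_mem' := by
    rintro f g ⟨hf, hf'⟩ ⟨hg, hg'⟩
    exact ⟨hf.comp hg, fun z => (hf' (g z)).trans (hg' z)⟩
  one_mem' := ⟨Hier.can_id i, fun z => Iff.rfl⟩
  inv_mem' := by
    rintro f ⟨hf, hf'⟩
    have hai : ∀ z, f (f⁻¹ z) = z := fun z => by simp
    have h' : ∀ z, 𝓗.lvl (f⁻¹ z) < i ↔ 𝓗.lvl z < i := by
      intro z
      rw [← hf' (f⁻¹ z), hai]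
    refine ⟨?_, h'⟩
    intro z hz
    have hz' : i ≤ 𝓗.lvl (f⁻¹ z) := by
      rw [← not_lt, h' z, not_lt]
      exact hz
    obtain ⟨h1, h2, h3⟩ := hf (f⁻¹ z) hz'
    rw [hai] at h1 h2 h3
    refine ⟨h1.symm, h2.symm, ?_⟩
    rw [h3, ← Set.image_comp]
    ext t
    constructor
    · intro ht
      refine ⟨t, ht, ?_⟩
      funext k
      simp
    · rintro ⟨s, hs, rfl⟩
      have : ((fun t => (⇑f⁻¹ : 𝓗.Ω → 𝓗.Ω) ∘ t) ∘ fun t => ⇑f ∘ t) s = s := by
        funext k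
        simp
      rw [this]
      exact hs

variable {𝓗}

theorem Hier.mem_grp {i : J} {f : Equiv.Perm 𝓗.Ω} :
    f ∈ 𝓗.grp i ↔ 𝓗.Can i f ∧ ∀ z, 𝓗.lvl (f z) < i ↔ 𝓗.lvl z < i := Iff.rfl

theorem Hier.grp_mono {i i' : J} (h : i ≤ i') : 𝓗.grp i ≤ 𝓗.grp i' := by
  rintro f ⟨hf, hf'⟩
  refine ⟨hf.mono h, fun z => ?_⟩
  by_cases hz : 𝓗.lvl z < i
  · exact ⟨fun _ => hz.trans_le h, fun _ => ((hf' z).mpr hz).trans_le h⟩
  · rw [(hf z (not_lt.mp hz)).1]

/-- elements of `grp i` are determined by their action below level `i` -/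
theorem Hier.grp_ext [WellFoundedLT J] {i : J} {f g : Equiv.Perm 𝓗.Ω} (hf : f ∈ 𝓗.grp i)
    (hg : g ∈ 𝓗.grp i) (h : ∀ z, 𝓗.lvl z < i → f z = g z) : f = g := by
  have := hf.1.uniq hg.1 h
  exact Equiv.ext (congrFun this)

/-- permutations of the part below level `i` extend -/
theorem Hier.exists_grp [WellFoundedLT J] (i : J)
    (g : Equiv.Perm {z : 𝓗.Ω // 𝓗.lvl z < i}) :
    ∃ f ∈ 𝓗.grp i, ∀ z : {z : 𝓗.Ω // 𝓗.lvl z < i}, f z.1 = (g z).1 := by
  classical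
  let G : Equiv.Perm {z : 𝓗.Ω // 𝓗.lvl z < i} → 𝓗.Ω → 𝓗.Ω := fun g z =>
    if h : 𝓗.lvl z < i then (g ⟨z, h⟩).1 else z
  have hG : ∀ g z, 𝓗.lvl z < i → 𝓗.lvl (G g z) < i := by
    intro g z hz
    simp only [G, dif_pos hz]
    exact (g ⟨z, hz⟩).2
  obtain ⟨f, hf, hf'⟩ := Hier.exists_can i (G g) (hG g)
  obtain ⟨f₂, hf₂, hf₂'⟩ := Hier.exists_can i (G g⁻¹) (hG g⁻¹)
  have h1 : ∀ z (hz : 𝓗.lvl z < i), f z = (g ⟨z, hz⟩).1 := fun z hz => by
    rw [hf' z hz]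
    simp only [G, dif_pos hz]
  have h2 : ∀ z (hz : 𝓗.lvl z < i), f₂ z = (g⁻¹ ⟨z, hz⟩).1 := fun z hz => by
    rw [hf₂' z hz]
    simp only [G, dif_pos hz]
  have e1 : f ∘ f₂ = id := by
    refine (hf.comp hf₂).uniq (Hier.can_id i) ?_
    intro z hz
    simp only [Function.comp_apply, id]
    rw [h2 z hz, h1 _ (g⁻¹ ⟨z, hz⟩).2]
    simp
  have e2 : f₂ ∘ f = id := by
    refine (hf₂.comp hf).uniq (Hier.can_id i) ?_
    intro z hz
    simp only [Function.comp_apply, id]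
    rw [h1 z hz, h2 _ (g ⟨z, hz⟩).2]
    simp
  refine ⟨⟨f, f₂, congrFun e2, congrFun e1⟩, ⟨hf, ?_⟩, fun z => h1 z.1 z.2⟩
  intro z
  change 𝓗.lvl (f z) < i ↔ _
  by_cases hz : 𝓗.lvl z < i
  · rw [h1 z hz]
    exact ⟨fun _ => hz, fun _ => (g ⟨z, hz⟩).2⟩
  · rw [(hf z (not_lt.mp hz)).1]

/-- The extension homomorphism. -/
noncomputable def Hier.extHom [WellFoundedLT J] (i : J) :
    Equiv.Perm {z : 𝓗.Ω // 𝓗.lvl z < i} →* Equiv.Perm 𝓗.Ω where
  toFun g := (Hier.exists_grp i g).choose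
  map_one' := by
    have h := (Hier.exists_grp i (1 : Equiv.Perm {z : 𝓗.Ω // 𝓗.lvl z < i})).choose_spec
    refine Hier.grp_ext h.1 (𝓗.grp i).one_mem ?_
    intro z hz
    rw [h.2 ⟨z, hz⟩]
    rfl
  map_mul' g g' := by
    have h := (Hier.exists_grp i (g * g')).choose_spec
    have h1 := (Hier.exists_grp i g).choose_spec
    have h2 := (Hier.exists_grp i g').choose_spec
    refine Hier.grp_ext h.1 ((𝓗.grp i).mul_mem h1.1 h2.1) ?_
    intro z hz
    have e2 := h2.2 ⟨z, hz⟩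
    have e1 := h1.2 (g' ⟨z, hz⟩)
    refine (h.2 ⟨z, hz⟩).trans ?_
    simp only [Equiv.Perm.mul_apply]
    exact e1.symm.trans (congrArg _ e2.symm)

theorem Hier.extHom_mem [WellFoundedLT J] (i : J) (g : Equiv.Perm {z : 𝓗.Ω // 𝓗.lvl z < i}) :
    Hier.extHom i g ∈ 𝓗.grp i := (Hier.exists_grp i g).choose_spec.1

theorem Hier.extHom_apply [WellFoundedLT J] (i : J) (g : Equiv.Perm {z : 𝓗.Ω // 𝓗.lvl z < i})
    (z : {z : 𝓗.Ω // 𝓗.lvl z < i}) : Hier.extHom i g z.1 = (g z).1 :=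
  (Hier.exists_grp i g).choose_spec.2 z

theorem Hier.extHom_injective [WellFoundedLT J] (i : J) :
    Function.Injective (Hier.extHom (𝓗 := 𝓗) i) := by
  intro g g' h
  ext z
  have h1 := Hier.extHom_apply i g z
  have h2 := Hier.extHom_apply i g' z
  rw [h] at h1
  rw [← h1, h2]

variable (𝓗)

/-- The union of the groups `grp i`. -/
def Hier.Grp [Nonempty J] : Subgroup (Equiv.Perm 𝓗.Ω) where
  carrier := {f | ∃ i, f ∈ 𝓗.grp i}
  mul_mem' := by
    rintro f g ⟨i, hf⟩ ⟨j, hg⟩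
    exact ⟨max i j, (𝓗.grp _).mul_mem (Hier.grp_mono (le_max_left i j) hf)
      (Hier.grp_mono (le_max_right i j) hg)⟩
  one_mem' := ⟨Classical.arbitrary J, (𝓗.grp _).one_mem⟩
  inv_mem' := by
    rintro f ⟨i, hf⟩
    exact ⟨i, (𝓗.grp _).inv_mem hf⟩

end Canonical

end Pool.Agent.X211
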