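import Mathlib
import Pool.Agent.X211.ASet
import Pool.Agent.X211.Hier
import Pool.Agent.X211.ECred

/-!
Embedding property and cardinalities for the groups `Hier.Grp`.
-/

set_option autoImplicit false
open Cardinal Set MulAction

universe u

namespace Pool.Agent.X211

section

variable {K M J : Type u} [LinearOrder J] [WellFoundedLT J] {𝓗 : Hier K M J}

/-- restriction of an element of `grp i` below level `i` -/
def Hier.res (i : J) (f : Equiv.Perm 𝓗.Ω) (hf : f ∈ 𝓗.grp i) :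
    Equiv.Perm {z : 𝓗.Ω // 𝓗.lvl z < i} := f.subtypePerm (fun z => hf.2 z)

theorem Hier.extHom_res (i : J) (f : Equiv.Perm 𝓗.Ω) (hf : f ∈ 𝓗.grp i) :
    Hier.extHom i (Hier.res i f hf) = f := by
  refine Hier.grp_ext (Hier.extHom_mem i _) hf ?_
  intro z hz
  exact Hier.extHom_apply i (Hier.res i f hf) ⟨z, hz⟩

/-- the action of a group on `Σ B, (L ⧸ B) × M` -/
@[instance_reducible]
def sigmaAction (L : Type u) [Group L] (M : Type u) :
    MulAction L (Σ B : Subgroup L, (L ⧸ B) × M) where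
  smul l p := ⟨p.1, l • p.2.1, p.2.2⟩
  one_smul p := by
    obtain ⟨B, q, m⟩ := p
    change (⟨B, (1 : L) • q, m⟩ : Σ B : Subgroup L, (L ⧸ B) × M) = _
    rw [one_smul]
  mul_smul l l' p := by
    obtain ⟨B, q, m⟩ := p
    change (⟨B, (l * l') • q, m⟩ : Σ B : Subgroup L, (L ⧸ B) × M) = ⟨B, l • l' • q, m⟩
    rw [mul_smul]

theorem mk_sigma_le {L M : Type u} [Group L] {κ : Cardinal.{u}} (hκ : ℵ₀ ≤ κ) (hL : #L ≤ κ)
    (hM : 2 ^ κ ≤ #M) : #(Σ B : Subgroup L, (L ⧸ B) × M) ≤ #M := by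
  have hMinf : ℵ₀ ≤ #M := (hκ.trans (Cardinal.cantor κ).le).trans hM
  rw [Cardinal.mk_sigma]
  have h1 : ∀ B : Subgroup L, #((L ⧸ B) × M) ≤ #M := by
    intro B
    rw [Cardinal.mk_prod, Cardinal.lift_id, Cardinal.lift_id]
    have h2 : #(L ⧸ B) ≤ #M :=
      (Cardinal.mk_quotient_le.trans hL).trans ((Cardinal.cantor κ).le.trans hM)
    exact (mul_le_mul' h2 le_rfl).trans (Cardinal.mul_eq_self hMinf).le
  have h3 : #(Subgroup L) ≤ #M := by
    have : #(Subgroup L) ≤ #(Set L) :=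
      Cardinal.mk_le_of_injective (f := fun B : Subgroup L => (B : Set L)) SetLike.coe_injective
    refine this.trans ?_
    rw [Cardinal.mk_set]
    exact (Cardinal.power_le_power_left two_ne_zero hL).trans hM
  refine (Cardinal.sum_le_mk_mul_iSup _).trans ?_
  have h4 : ⨆ B : Subgroup L, #((L ⧸ B) × M) ≤ #M := ciSup_le' h1
  exact (mul_le_mul' h3 h4).trans (Cardinal.mul_eq_self hMinf).le

theorem Hier.emb [NoMaxOrder J] [Nonempty J] [Nonempty M] {κ : Cardinal.{u}} (hκ : ℵ₀ ≤ κ)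
    (hK : #K = κ) (hM : 2 ^ κ ≤ #M)
    (hJ : ∀ S : Set J, #S ≤ κ → ∃ j, ∀ s ∈ S, s < j)
    (A : Subgroup 𝓗.Grp) (L : Type u) [Group L] (j : A →* L) (hA : #A ≤ κ) (hL : #L ≤ κ)
    (hj : Function.Injective j) :
    ∃ Θ : L →* 𝓗.Grp, Function.Injective Θ ∧ ∀ a : A, Θ (j a) = a := by
  classical
  -- common level
  choose lv hlv using fun a : A => a.1.2
  obtain ⟨i, hi⟩ := hJ (range lv) (Cardinal.mk_range_le.trans hA)
  have hAi : ∀ a : A, a.1.1 ∈ 𝓗.grp i := fun a => Hier.grp_mono (hi _ ⟨a, rfl⟩).le (hlv a)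
  have hz₀ : ∃ z₀ : 𝓗.Ω, 𝓗.lvl z₀ < i := by
    obtain ⟨z, hz, _⟩ := 𝓗.node (lv 1) (Classical.arbitrary M) ∅ (by simp) (by simp)
    exact ⟨z, hz ▸ hi _ ⟨1, rfl⟩⟩
  obtain ⟨z₀, hz₀⟩ := hz₀
  obtain ⟨i₂, hi₂⟩ := exists_gt i
  have hAi₂ : ∀ a : A, a.1.1 ∈ 𝓗.grp i₂ := fun a => Hier.grp_mono hi₂.le (hAi a)
  -- the set `X`
  let X : Type u := {z : 𝓗.Ω // 𝓗.lvl z < i₂}
  let actX : MulAction A X :=
    { smul := fun a z => ⟨a.1.1 z.1, ((hAi₂ a).2 z.1).mpr z.2⟩
      one_smul := fun z => Subtype.ext rfl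
      mul_smul := fun a b z => Subtype.ext rfl }
  have smulX : ∀ (a : A) (z : X), (a • z).1 = a.1.1 z.1 := fun a z => rfl
  -- a sequence with trivial stabiliser
  have hx : ∀ a : A, ∃ x : 𝓗.Ω, 𝓗.lvl x < i ∧ (a ≠ 1 → a.1.1 x ≠ x) := by
    intro a
    by_cases ha : a = 1
    · exact ⟨z₀, hz₀, fun h => absurd ha h⟩
    · by_contra hcon
      push Not at hcon
      apply ha
      apply Subtype.ext
      apply Subtype.ext
      refine Hier.grp_ext (hAi a) (𝓗.grp i).one_mem ?_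
      intro z hz
      exact (hcon z hz).2
  choose x hx1 hx2 using hx
  obtain ⟨s, hs⟩ : ∃ s : K → A, Function.Surjective s := by
    have : #A ≤ #K := by rw [hK]; exact hA
    obtain ⟨e⟩ := (Cardinal.le_def _ _).mp this
    exact ⟨Function.invFun e, Function.invFun_surjective e.injective⟩
  have hsep : ∀ a b : A, (∀ k, a.1.1 (x (s k)) = b.1.1 (x (s k))) → a = b := by
    intro a b hab
    by_contra hne
    have hc : b⁻¹ * a ≠ 1 := by
      intro h
      exact hne (inv_mul_eq_one.mp h).symm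
    obtain ⟨k, hk⟩ := hs (b⁻¹ * a)
    apply hx2 (b⁻¹ * a) hc
    have h1 := hab k
    rw [hk] at h1
    change b.1.1⁻¹ (a.1.1 (x (b⁻¹ * a))) = _
    rw [h1, Equiv.Perm.inv_eq_iff_eq]
  have typesX : ManyTypes A X M := by
    intro B
    have hnode : ∀ m : M, ∃ z, 𝓗.lvl z = i ∧ 𝓗.lab z = m ∧
        𝓗.mem z = range (fun b : B => fun k => b.1.1.1 (x (s k))) := by
      intro m
      refine 𝓗.node i m _ ?_ ?_
      · refine Cardinal.mk_range_le.trans ((Cardinal.mk_subtype_le _).trans ?_)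
        rw [hK]
        exact hA
      · rintro _ ⟨b, rfl⟩ k
        exact ((hAi b.1).2 _).mpr (hx1 _)
    choose z hz1 hz2 hz3 using hnode
    refine ⟨fun m => ⟨z m, (hz1 m).trans_lt hi₂⟩, ?_, ?_⟩
    · intro m
      ext a
      obtain ⟨c1, c2, c3⟩ := (hAi a).1 (z m) (hz1 m).ge
      rw [mem_stabilizer_iff]
      constructor
      · intro h
        have h' : a.1.1 (z m) = z m := congrArg Subtype.val h
        rw [h', hz3 m] at c3
        have h1 : (fun k => a.1.1 (x (s k))) ∈ range (fun b : B => fun k => b.1.1.1 (x (s k))) := by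
          rw [c3]
          exact ⟨fun k => x (s k), ⟨1, rfl⟩, rfl⟩
        obtain ⟨b, hb⟩ := h1
        have h2 : b.1 = a := hsep _ _ (fun k => congrFun hb k)
        rw [← h2]
        exact b.2
      · intro ha
        apply Subtype.ext
        refine 𝓗.ext _ _ c1 c2 ?_
        change 𝓗.mem (a.1.1 (z m)) = 𝓗.mem (z m)
        rw [c3, hz3 m]
        ext t
        constructor
        · rintro ⟨_, ⟨b, rfl⟩, rfl⟩
          exact ⟨⟨a, ha⟩ * b, rfl⟩
        · rintro ⟨b, rfl⟩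
          refine ⟨_, ⟨(⟨a, ha⟩ : B)⁻¹ * b, rfl⟩, ?_⟩
          funext k
          change a.1.1 (a.1.1⁻¹ (b.1.1.1 (x (s k)))) = _
          simp
    · intro m m' h
      rw [orbitRel_apply, mem_orbit_iff] at h
      obtain ⟨a, ha⟩ := h
      obtain ⟨c1, c2, c3⟩ := (hAi a).1 (z m') (hz1 m').ge
      have h1 : a.1.1 (z m') = z m := congrArg Subtype.val ha
      rw [h1, hz2, hz2] at c2
      exact c2
  -- the set `Y`
  let Y : Type u := Σ B : Subgroup L, (L ⧸ B) × M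
  let actL : MulAction L Y := sigmaAction L M
  let actY : MulAction A Y := MulAction.compHom Y j
  have smulY : ∀ (a : A) (y : Y), a • y = j a • y := fun a y => rfl
  have typesY : ManyTypes A Y M := by
    intro B
    refine ⟨fun m => ⟨B.map j, ((1 : L) : L ⧸ B.map j), m⟩, ?_, ?_⟩
    · intro m
      ext a
      rw [mem_stabilizer_iff, smulY]
      have e0 : j a ∈ B.map j ↔ a ∈ B := by
        constructor
        · rintro ⟨b, hb, hab⟩
          rw [← hj hab]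
          exact hb
        · intro ha
          exact ⟨a, ha, rfl⟩
      have e1 : (((j a * 1 : L) : L ⧸ B.map j) = ((1 : L) : L ⧸ B.map j)) ↔ a ∈ B := by
        rw [QuotientGroup.eq, ← e0, mul_one, mul_one, inv_mem_iff]
      rw [← e1]
      constructor
      · intro h
        have h' : (⟨B.map j, ((j a * 1 : L) : L ⧸ B.map j), m⟩ : Y) =
            ⟨B.map j, ((1 : L) : L ⧸ B.map j), m⟩ := h
        exact congrArg Prod.fst (eq_of_heq (Sigma.mk.inj h').2)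
      · intro h
        change (⟨B.map j, ((j a * 1 : L) : L ⧸ B.map j), m⟩ : Y) =
            ⟨B.map j, ((1 : L) : L ⧸ B.map j), m⟩
        rw [h]
    · intro m m' h
      rw [orbitRel_apply, mem_orbit_iff] at h
      obtain ⟨a, ha⟩ := h
      have h1 : (a • (⟨B.map j, ((1 : L) : L ⧸ B.map j), m'⟩ : Y)).2.2 = m' := rfl
      have h2 := congrArg (fun y : Y => y.2.2) ha
      exact (h1.symm.trans h2).symm
  have hMinf : ℵ₀ ≤ #M := (hκ.trans (Cardinal.cantor κ).le).trans hM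
  obtain ⟨φ, hφ⟩ := exists_equivariant (A := A) (X := X) (Y := Y) (M := M)
    ((Cardinal.mk_subtype_le _).trans 𝓗.card) (mk_sigma_le hκ hL hM) typesX typesY
  let θ : L →* Equiv.Perm X := (φ.symm.permCongrHom).toMonoidHom.comp (MulAction.toPermHom L Y)
  have hθ : ∀ (l : L) (z : X), θ l z = φ.symm (l • φ z) := fun l z => rfl
  have hθinj : Function.Injective θ := by
    intro l l' h
    have h1 : ∀ y : Y, l • y = l' • y := by
      intro y
      have h2 := hθ l (φ.symm y)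
      have h3 := hθ l' (φ.symm y)
      rw [h, h3] at h2
      simpa using h2.symm
    have h2 := h1 ⟨⊥, ((1 : L) : L ⧸ (⊥ : Subgroup L)), Classical.arbitrary M⟩
    have h3 : (⟨⊥, ((l * 1 : L) : L ⧸ (⊥ : Subgroup L)), Classical.arbitrary M⟩ : Y) =
      ⟨⊥, ((l' * 1 : L) : L ⧸ (⊥ : Subgroup L)), Classical.arbitrary M⟩ := h2
    have h4 := congrArg Prod.fst (eq_of_heq (Sigma.mk.inj h3).2)
    rw [QuotientGroup.eq, Subgroup.mem_bot, mul_one, mul_one] at h4
    exact inv_mul_eq_one.mp h4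
  let Θ : L →* 𝓗.Grp := ((Hier.extHom i₂).comp θ).codRestrict 𝓗.Grp
    (fun l => ⟨i₂, Hier.extHom_mem i₂ _⟩)
  have hΘ : ∀ l, (Θ l).1 = Hier.extHom i₂ (θ l) := fun l => rfl
  refine ⟨Θ, ?_, ?_⟩
  · intro l l' h
    apply hθinj
    apply Hier.extHom_injective i₂
    rw [← hΘ, ← hΘ, h]
  · intro a
    apply Subtype.ext
    rw [hΘ]
    refine Hier.grp_ext (Hier.extHom_mem i₂ _) (hAi₂ a) ?_
    intro z hz
    rw [Hier.extHom_apply i₂ (θ (j a)) ⟨z, hz⟩, hθ, ← smulY, ← hφ, Equiv.symm_apply_apply]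
    rfl

/-- extensions of transpositions -/
noncomputable def Hier.tr [Nonempty J] (𝓗 : Hier K M J) (p : J × 𝓗.Ω × 𝓗.Ω) : 𝓗.Grp := by
  classical exact
    if h : 𝓗.lvl p.2.1 < p.1 ∧ 𝓗.lvl p.2.2 < p.1 then
      ⟨Hier.extHom p.1 (Equiv.swap ⟨p.2.1, h.1⟩ ⟨p.2.2, h.2⟩), ⟨p.1, Hier.extHom_mem _ _⟩⟩
    else 1

open Classical in
theorem Hier.tr_eq [Nonempty J] {i : J} {x y : 𝓗.Ω} (hx : 𝓗.lvl x < i) (hy : 𝓗.lvl y < i) :
    (𝓗.tr (i, x, y)).1 = Hier.extHom i (Equiv.swap ⟨x, hx⟩ ⟨y, hy⟩) := by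
  unfold Hier.tr
  rw [dif_pos ⟨hx, hy⟩]

theorem Hier.conj_tr [Nonempty J] {i : J} {x y : 𝓗.Ω} (hx : 𝓗.lvl x < i) (hy : 𝓗.lvl y < i)
    (g : 𝓗.Grp) (hg : g.1 ∈ 𝓗.grp i) :
    g * 𝓗.tr (i, x, y) * g⁻¹ = 𝓗.tr (i, g.1 x, g.1 y) := by
  classical
  have hx' : 𝓗.lvl (g.1 x) < i := (hg.2 x).mpr hx
  have hy' : 𝓗.lvl (g.1 y) < i := (hg.2 y).mpr hy
  apply Subtype.ext
  change g.1 * (𝓗.tr (i, x, y)).1 * g.1⁻¹ = (𝓗.tr (i, g.1 x, g.1 y)).1
  rw [Hier.tr_eq hx hy, Hier.tr_eq hx' hy']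
  have e := Hier.extHom_res i g.1 hg
  conv_lhs => rw [← e]
  rw [← map_inv, ← map_mul, ← map_mul, ← Equiv.swap_apply_apply]
  rfl

theorem Hier.mk_below [NoMaxOrder J] {i j : J} (hij : j < i) :
    #{z : 𝓗.Ω // 𝓗.lvl z < i} = #M := by
  apply le_antisymm ((Cardinal.mk_subtype_le _).trans 𝓗.card)
  have h : ∀ m : M, ∃ z, 𝓗.lvl z = j ∧ 𝓗.lab z = m ∧ 𝓗.mem z = ∅ := fun m =>
    𝓗.node j m ∅ (by simp) (by simp)
  choose z h1 h2 h3 using h
  refine Cardinal.mk_le_of_injective (f := fun m => (⟨z m, (h1 m).trans_lt hij⟩ :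
    {z : 𝓗.Ω // 𝓗.lvl z < i})) ?_
  intro m m' h
  have := congrArg Subtype.val h
  simp only at this
  rw [← h2 m, ← h2 m', this]

theorem swap_mem {α : Type u} [DecidableEq α] {a b x y : α} (hab : a ≠ b)
    (h : Equiv.swap a b = Equiv.swap x y) : a = x ∨ a = y := by
  by_contra hcon
  push Not at hcon
  have h1 : Equiv.swap x y a = a := Equiv.swap_apply_of_ne_of_ne hcon.1 hcon.2
  rw [← h, Equiv.swap_apply_left] at h1
  exact hab h1.symm

/-- Automorphisms of `Grp` are determined by their values on extended transpositions. -/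
theorem Hier.aut_ext [NoMaxOrder J] [Nonempty J] (hM : ℵ₀ ≤ #M) (σ τ : MulAut 𝓗.Grp)
    (h : ∀ p, σ (𝓗.tr p) = τ (𝓗.tr p)) : σ = τ := by
  classical
  ext g : 1
  obtain ⟨i, hi⟩ := g.2
  let w : 𝓗.Grp := (τ g)⁻¹ * σ g
  let u : 𝓗.Grp := σ.symm w
  obtain ⟨k, hk⟩ := u.2
  obtain ⟨j, hj⟩ := exists_gt (max i k)
  have hgj : g.1 ∈ 𝓗.grp j := Hier.grp_mono ((le_max_left i k).trans hj.le) hi
  have huj : u.1 ∈ 𝓗.grp j := Hier.grp_mono ((le_max_right i k).trans hj.le) hk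
  -- `u` commutes with all transpositions below `j`
  have hcomm : ∀ x y, 𝓗.lvl x < j → 𝓗.lvl y < j →
      𝓗.tr (j, u.1 x, u.1 y) = 𝓗.tr (j, x, y) := by
    intro x y hx hy
    have e1 := Hier.conj_tr hx hy g hgj
    have e2 : σ g * σ (𝓗.tr (j, x, y)) * (σ g)⁻¹ = τ g * σ (𝓗.tr (j, x, y)) * (τ g)⁻¹ := by
      have a1 := congrArg σ e1
      have a2 := congrArg τ e1
      rw [map_mul, map_mul, map_inv] at a1 a2
      rw [a1, h (j, x, y), a2, h]
    have e3 : w * σ (𝓗.tr (j, x, y)) * w⁻¹ = σ (𝓗.tr (j, x, y)) := by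
      have : w * σ (𝓗.tr (j, x, y)) * w⁻¹ =
          (τ g)⁻¹ * (σ g * σ (𝓗.tr (j, x, y)) * (σ g)⁻¹) * τ g := by
        simp only [w]
        group
      rw [this, e2]
      group
    have e4 : u * 𝓗.tr (j, x, y) * u⁻¹ = 𝓗.tr (j, x, y) := by
      apply σ.injective
      rw [map_mul, map_mul, map_inv]
      have : σ u = w := σ.apply_symm_apply w
      rw [this, e3]
    rw [← Hier.conj_tr hx hy u huj, e4]
  have hinf : Infinite {z : 𝓗.Ω // 𝓗.lvl z < j} := by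
    rw [Cardinal.infinite_iff, Hier.mk_below ((le_max_left i k).trans_lt hj)]
    exact hM
  have hu1 : u = 1 := by
    apply Subtype.ext
    refine Hier.grp_ext huj (𝓗.grp j).one_mem ?_
    intro x hx
    have hux : 𝓗.lvl (u.1 x) < j := (huj.2 x).mpr hx
    -- two further points
    have key : ∀ y (hy : 𝓗.lvl y < j), y ≠ x → u.1 x = x ∨ u.1 x = y := by
      intro y hy hyx
      have huy : 𝓗.lvl (u.1 y) < j := (huj.2 y).mpr hy
      have e1 := congrArg Subtype.val (hcomm x y hx hy)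
      rw [Hier.tr_eq hux huy, Hier.tr_eq hx hy] at e1
      have e2 := Hier.extHom_injective j e1
      have hne : (⟨u.1 x, hux⟩ : {z : 𝓗.Ω // 𝓗.lvl z < j}) ≠ ⟨u.1 y, huy⟩ := by
        intro h
        exact hyx (u.1.injective (congrArg Subtype.val h)).symm
      rcases swap_mem hne e2 with h | h
      · exact Or.inl (congrArg Subtype.val h)
      · exact Or.inr (congrArg Subtype.val h)
    obtain ⟨y, hy⟩ := Infinite.exists_notMem_finset
      ({⟨x, hx⟩} : Finset {z : 𝓗.Ω // 𝓗.lvl z < j})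
    obtain ⟨y', hy'⟩ := Infinite.exists_notMem_finset
      ({⟨x, hx⟩, y} : Finset {z : 𝓗.Ω // 𝓗.lvl z < j})
    have hyx : y.1 ≠ x := fun h => hy (by simp [← h])
    have hy'x : y'.1 ≠ x := fun h => hy' (by simp [← h])
    have hyy' : y.1 ≠ y'.1 := fun h => hy' (by
      have : y = y' := Subtype.ext h
      simp [this])
    rcases key y.1 y.2 hyx with h1 | h1
    · exact h1
    · rcases key y'.1 y'.2 hy'x with h2 | h2
      · exact h2
      · exact absurd (h1.symm.trans h2) hyy'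
  have hw1 : w = 1 := by
    have : σ u = w := σ.apply_symm_apply w
    rw [← this, hu1, map_one]
  exact (inv_mul_eq_one.mp hw1).symm

theorem Hier.mk_Grp_le [Nonempty J] (hM : ℵ₀ ≤ #M) : #𝓗.Grp ≤ 2 ^ #M := by
  refine (Cardinal.mk_subtype_le _).trans ?_
  have h1 : #(Equiv.Perm 𝓗.Ω) ≤ #(𝓗.Ω → 𝓗.Ω) :=
    Cardinal.mk_le_of_injective (f := fun g : Equiv.Perm 𝓗.Ω => (g : 𝓗.Ω → 𝓗.Ω))
      DFunLike.coe_injective
  refine h1.trans ?_
  rw [← Cardinal.power_def]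
  have h2 : #𝓗.Ω ^ #𝓗.Ω ≤ #M ^ #M := by
    rcases isEmpty_or_nonempty 𝓗.Ω with he | hne
    · have : #𝓗.Ω = 0 := Cardinal.mk_eq_zero _
      rw [this, Cardinal.power_zero]
      exact Cardinal.one_le_iff_ne_zero.mpr (Cardinal.power_ne_zero _ (by
        intro h0
        rw [h0] at hM
        exact absurd hM (not_le.mpr Cardinal.aleph0_pos)))
    · exact (Cardinal.power_le_power_right 𝓗.card).trans
        (Cardinal.power_le_power_left (by
          intro h0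
          rw [h0] at hM
          exact absurd hM (not_le.mpr Cardinal.aleph0_pos)) 𝓗.card)
  refine h2.trans ?_
  rw [Cardinal.power_self_eq hM]

theorem Hier.le_mk_Grp [NoMaxOrder J] [Nonempty J] (hM : ℵ₀ ≤ #M) : 2 ^ #M ≤ #𝓗.Grp := by
  obtain ⟨i, hi⟩ := exists_gt (Classical.arbitrary J)
  have hinf : Infinite {z : 𝓗.Ω // 𝓗.lvl z < i} := by
    rw [Cardinal.infinite_iff, Hier.mk_below hi]
    exact hM
  have h1 : #(Equiv.Perm {z : 𝓗.Ω // 𝓗.lvl z < i}) = 2 ^ #M := by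
    rw [Cardinal.mk_perm_eq_two_power, Hier.mk_below hi]
  rw [← h1]
  refine Cardinal.mk_le_of_injective (f := fun g => (⟨Hier.extHom i g, i, Hier.extHom_mem i g⟩ :
    𝓗.Grp)) ?_
  intro g g' h
  exact Hier.extHom_injective i (congrArg Subtype.val h)

theorem Hier.mk_Aut_le [NoMaxOrder J] [Nonempty J] (hM : ℵ₀ ≤ #M) (hJ : #J ≤ #M) :
    #(MulAut 𝓗.Grp) ≤ 2 ^ #M := by
  have h1 : #(MulAut 𝓗.Grp) ≤ #(J × 𝓗.Ω × 𝓗.Ω → 𝓗.Grp) := by
    refine Cardinal.mk_le_of_injective (f := fun σ : MulAut 𝓗.Grp => fun p => σ (𝓗.tr p)) ?_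
    intro σ τ h
    exact Hier.aut_ext hM σ τ (fun p => congrFun h p)
  refine h1.trans ?_
  rw [← Cardinal.power_def]
  have h2 : #(J × 𝓗.Ω × 𝓗.Ω) ≤ #M := by
    rw [Cardinal.mk_prod, Cardinal.mk_prod]
    simp only [Cardinal.lift_id]
    exact (mul_le_mul' hJ (mul_le_mul' 𝓗.card 𝓗.card)).trans (by
      rw [Cardinal.mul_eq_self hM, Cardinal.mul_eq_self hM])
  have h3 : #𝓗.Grp ^ #(J × 𝓗.Ω × 𝓗.Ω) ≤ (2 ^ #M) ^ #M := by
    refine (Cardinal.power_le_power_right (Hier.mk_Grp_le hM)).trans ?_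
    exact Cardinal.power_le_power_left (Cardinal.power_ne_zero _ two_ne_zero) h2
  refine h3.trans ?_
  rw [← Cardinal.power_mul, Cardinal.mul_eq_self hM]

end

end Pool.Agent.X211
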